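import Mathlib

set_option autoImplicit false

open Set Filter Topology
open scoped NNReal ENNReal

namespace Pool.Agent.V11330.ET

/-- triangular numbers -/
def tri : ℕ → ℕ
  | 0 => 0
  | n + 1 => tri n + (n + 1)

lemma tri_eq (n : ℕ) : 8 * tri n + 1 = (2 * n + 1) ^ 2 := by
  induction n with
  | zero => rfl
  | succ n ih => simp only [tri]; nlinarith

/-- `(q)_N` -/
noncomputable def Pq (q : ℝ) (N : ℕ) : ℝ := ∏ m ∈ Finset.range N, (1 - q ^ (m + 1))

lemma Pq_succ (q : ℝ) (N : ℕ) : Pq q (N + 1) = Pq q N * (1 - q ^ (N + 1)) := by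
  unfold Pq; rw [Finset.prod_range_succ]

lemma Pq_zero (q : ℝ) : Pq q 0 = 1 := by simp [Pq]

variable {q : ℝ}

lemma fac_pos (h0 : 0 < q) (h1 : q < 1) (m : ℕ) : 0 < 1 - q ^ (m + 1) := by
  have h2 : q ^ (m + 1) < 1 := pow_lt_one₀ h0.le h1 (Nat.succ_ne_zero m)
  linarith

lemma Pq_pos (h0 : 0 < q) (h1 : q < 1) (N : ℕ) : 0 < Pq q N :=
  Finset.prod_pos fun m _ => fac_pos h0 h1 m

lemma Pq_anti (h0 : 0 < q) (h1 : q < 1) : Antitone (Pq q) := by
  refine antitone_nat_of_succ_le fun N => ?_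
  rw [Pq_succ]
  have h2 := Pq_pos h0 h1 N
  have h3 : 0 < q ^ (N + 1) := by positivity
  nlinarith

/-- the Gaussian binomial coefficient `[2N+1, N-n]` -/
noncomputable def Aq (q : ℝ) (N n : ℕ) : ℝ :=
  if n ≤ N then Pq q (2 * N + 1) / (Pq q (N - n) * Pq q (N + n + 1)) else 0

lemma Aq_le {N n : ℕ} (h : n ≤ N) :
    Aq q N n = Pq q (2 * N + 1) / (Pq q (N - n) * Pq q (N + n + 1)) := if_pos h

lemma Aq_gt {N n : ℕ} (h : N < n) : Aq q N n = 0 := if_neg (by omega)

lemma Aq_rec (h0 : 0 < q) (h1 : q < 1) (N n : ℕ) (hn : n ≤ N) :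
    Aq q (N + 1) (n + 1) = (1 + q ^ (2 * N + 2)) * Aq q N (n + 1) + q ^ (N - n) * Aq q N n +
      q ^ (N + n + 3) * Aq q N (n + 2) := by
  have hP := fun k => (Pq_pos h0 h1 k).ne'
  obtain ⟨k, rfl⟩ : ∃ k, N = n + k := ⟨N - n, by omega⟩
  rw [Aq_le (show n + 1 ≤ n + k + 1 by omega), Aq_le (show n ≤ n + k by omega)]
  have e1 : n + k + 1 - (n + 1) = k := by omega
  have e2 : n + k - n = k := by omega
  rw [e1, e2]
  have a1 : Pq q (2 * (n + k + 1) + 1) = Pq q (2 * (n + k) + 1) * (1 - q ^ (2 * (n + k) + 2)) *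
      (1 - q ^ (2 * (n + k) + 3)) := by
    rw [show 2 * (n + k + 1) + 1 = (2 * (n + k) + 1) + 1 + 1 by ring, Pq_succ, Pq_succ]
  have a2 : Pq q (n + k + 1 + (n + 1) + 1) = Pq q (n + k + n + 1) * (1 - q ^ (n + k + n + 2)) *
      (1 - q ^ (n + k + n + 3)) := by
    rw [show n + k + 1 + (n + 1) + 1 = (n + k + n + 1) + 1 + 1 by ring, Pq_succ, Pq_succ]
  have f2 := (fac_pos h0 h1 (n + k + n + 1)).ne'
  have f3 := (fac_pos h0 h1 (n + k + n + 2)).ne'
  rw [a1, a2]
  rcases k with _ | _ | k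
  · -- k = 0
    rw [Aq_gt (show n + 0 < n + 1 by omega), Aq_gt (show n + 0 < n + 2 by omega)]
    have hPn := hP (n + 0 + n + 1)
    have e3 : 2 * (n + 0) + 1 = n + 0 + n + 1 := by ring
    have e4 : 2 * (n + 0) + 2 = n + 0 + n + 1 + 1 := by ring
    have e5 : 2 * (n + 0) + 3 = n + 0 + n + 2 + 1 := by ring
    rw [e3, e4, e5, show n + 0 + n + 2 = n + 0 + n + 1 + 1 by ring,
      show n + 0 + n + 3 = n + 0 + n + 2 + 1 by ring, Pq_zero]
    field_simp
    ring
  · -- k = 1
    rw [Aq_le (show n + 1 ≤ n + (0 + 1) by omega), Aq_gt (show n + (0 + 1) < n + 2 by omega)]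
    have e6 : n + (0 + 1) - (n + 1) = 0 := by omega
    rw [e6, Pq_zero]
    have a3 : Pq q (n + (0 + 1) + (n + 1) + 1) = Pq q (n + (0 + 1) + n + 1) *
        (1 - q ^ (n + (0 + 1) + n + 1 + 1)) := by
      rw [show n + (0 + 1) + (n + 1) + 1 = (n + (0 + 1) + n + 1) + 1 by ring, Pq_succ]
    have a4 : Pq q (0 + 1) = 1 - q ^ (0 + 1) := by rw [Pq_succ, Pq_zero, one_mul]
    rw [a3, a4]
    have f4 := (fac_pos h0 h1 0).ne'
    have hPn := hP (n + (0 + 1) + n + 1)
    have hP2 := hP (2 * (n + (0 + 1)) + 1)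
    rw [show n + (0 + 1) + n + 2 = n + (0 + 1) + n + 1 + 1 by ring,
      show n + (0 + 1) + n + 3 = n + (0 + 1) + n + 2 + 1 by ring]
    field_simp
    ring
  · -- general
    rw [Aq_le (show n + 1 ≤ n + (k + 1 + 1) by omega),
      Aq_le (show n + 2 ≤ n + (k + 1 + 1) by omega)]
    have e6 : n + (k + 1 + 1) - (n + 1) = k + 1 := by omega
    have e7 : n + (k + 1 + 1) - (n + 2) = k := by omega
    rw [e6, e7]
    have a3 : Pq q (n + (k + 1 + 1) + (n + 1) + 1) = Pq q (n + (k + 1 + 1) + n + 1) *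
        (1 - q ^ (n + (k + 1 + 1) + n + 1 + 1)) := by
      rw [show n + (k + 1 + 1) + (n + 1) + 1 = (n + (k + 1 + 1) + n + 1) + 1 by ring, Pq_succ]
    have a5 : Pq q (n + (k + 1 + 1) + (n + 2) + 1) = Pq q (n + (k + 1 + 1) + n + 1) *
        (1 - q ^ (n + (k + 1 + 1) + n + 1 + 1)) * (1 - q ^ (n + (k + 1 + 1) + n + 2 + 1)) := by
      rw [show n + (k + 1 + 1) + (n + 2) + 1 = (n + (k + 1 + 1) + n + 1) + 1 + 1 by ring,
        Pq_succ, Pq_succ]
    have a4 : Pq q (k + 1 + 1) = Pq q k * (1 - q ^ (k + 1)) * (1 - q ^ (k + 1 + 1)) := by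
      rw [Pq_succ, Pq_succ]
    rw [a3, a5, a4, Pq_succ q k]
    have f4 := (fac_pos h0 h1 k).ne'
    have f5 := (fac_pos h0 h1 (k + 1)).ne'
    have hPk := hP k
    have hPn := hP (n + (k + 1 + 1) + n + 1)
    have hP2 := hP (2 * (n + (k + 1 + 1)) + 1)
    rw [show n + (k + 1 + 1) + n + 2 = n + (k + 1 + 1) + n + 1 + 1 by ring,
      show n + (k + 1 + 1) + n + 3 = n + (k + 1 + 1) + n + 2 + 1 by ring]
    field_simp
    ring

lemma Aq_rec_zero (h0 : 0 < q) (h1 : q < 1) (N : ℕ) :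
    Aq q (N + 1) 0 = (1 + q ^ (2 * N + 2)) * Aq q N 0 + q ^ (N + 1) * Aq q N 0 +
      q ^ (N + 2) * Aq q N 1 := by
  have hP := fun k => (Pq_pos h0 h1 k).ne'
  rw [Aq_le (show 0 ≤ N + 1 by omega), Aq_le (show 0 ≤ N by omega)]
  have a1 : Pq q (2 * (N + 1) + 1) = Pq q (2 * N + 1) * (1 - q ^ (2 * N + 1 + 1)) *
      (1 - q ^ (2 * N + 2 + 1)) := by
    rw [show 2 * (N + 1) + 1 = (2 * N + 1) + 1 + 1 by ring, Pq_succ, Pq_succ]
  simp only [Nat.sub_zero, add_zero]
  rcases N with _ | N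
  · rw [Aq_gt (show 0 < 1 by omega)]
    simp only [Pq_succ, Pq_zero]
    have f0 := (fac_pos h0 h1 0).ne'
    have f1 := (fac_pos h0 h1 1).ne'
    have f2 := (fac_pos h0 h1 2).ne'
    norm_num at f0 f1 f2 ⊢
    field_simp
    rw [Pq_zero]
    ring
  · rw [Aq_le (show 1 ≤ N + 1 by omega), a1]
    have e1 : N + 1 - 1 = N := by omega
    rw [e1]
    have a2 : Pq q (N + 1 + 1 + 1) = Pq q N * (1 - q ^ (N + 1)) * (1 - q ^ (N + 1 + 1)) *
        (1 - q ^ (N + 2 + 1)) := by
      rw [Pq_succ, Pq_succ, Pq_succ]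
    have a3 : Pq q (N + 1 + 1) = Pq q N * (1 - q ^ (N + 1)) * (1 - q ^ (N + 1 + 1)) := by
      rw [Pq_succ, Pq_succ]
    rw [a2, a3, Pq_succ q N]
    have f0 := (fac_pos h0 h1 N).ne'
    have f1 := (fac_pos h0 h1 (N + 1)).ne'
    have f2 := (fac_pos h0 h1 (N + 2)).ne'
    have hPN := hP N
    have hP2 := hP (2 * (N + 1) + 1)
    field_simp
    ring

/-- the coefficients -/
noncomputable def Tq (q : ℝ) (n : ℕ) : ℝ := (-1) ^ n * (2 * n + 1) * q ^ tri n

lemma sum_shift_two (N : ℕ) (f : ℕ → ℝ) (h1 : f (N + 1) = 0) (h2 : f (N + 2) = 0) :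
    ∑ n ∈ Finset.range (N + 1), f n = ∑ n ∈ Finset.range (N + 1), f (n + 2) + f 1 + f 0 := by
  have h3 := Finset.sum_range_succ' f (N + 2)
  have h4 := Finset.sum_range_succ' (fun n => f (n + 1)) (N + 1)
  rw [Finset.sum_range_succ, Finset.sum_range_succ, h1, h2] at h3
  simp only [add_zero] at h3
  rw [h3, h4]

/-- **finite Jacobi identity** -/
theorem jacobi_finite (h0 : 0 < q) (h1 : q < 1) (N : ℕ) :
    ∑ n ∈ Finset.range (N + 1), Tq q n * Aq q N n = Pq q N ^ 2 := by
  induction N with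
  | zero =>
    simp only [zero_add, Finset.range_one, Finset.sum_singleton]
    rw [Aq_le le_rfl]
    have f0 := (fac_pos h0 h1 0).ne'
    simp only [Tq, tri, Pq, Finset.range_zero, Finset.prod_empty, Finset.range_one,
      Finset.prod_singleton, mul_zero, zero_add, Nat.sub_self, pow_zero, Nat.cast_zero, mul_one,
      one_mul, one_pow]
    exact div_self f0
  | succ N ih =>
    have hA : ∀ n, N < n → Aq q N n = 0 := fun n h => Aq_gt h
    rw [Finset.sum_range_succ']
    -- the recursion inside the sum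
    have h2 : ∀ n ∈ Finset.range (N + 1), Tq q (n + 1) * Aq q (N + 1) (n + 1) =
        (1 + q ^ (2 * N + 2)) * (Tq q (n + 1) * Aq q N (n + 1)) +
        q ^ (N + 1) * (-((-1) ^ n * (2 * n + 3) * q ^ tri n) * Aq q N n) +
        q ^ (N + 1) * (-((-1) ^ (n + 2) * (2 * (n + 2 : ℕ) - 1) * q ^ tri (n + 2)) *
          Aq q N (n + 2)) := by
      intro n hn
      have hn' : n ≤ N := by have := Finset.mem_range.1 hn; omega
      rw [Aq_rec h0 h1 N n hn']
      have e1 : q ^ tri (n + 1) * q ^ (N - n) = q ^ (N + 1) * q ^ tri n := by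
        rw [← pow_add, ← pow_add]; congr 1; simp only [tri]; omega
      have e2 : q ^ tri (n + 1) * q ^ (N + n + 3) = q ^ (N + 1) * q ^ tri (n + 2) := by
        rw [← pow_add, ← pow_add]; congr 1; simp only [tri]; omega
      unfold Tq
      push_cast
      linear_combination ((-1 : ℝ) ^ (n + 1) * (2 * (n + 1) + 1) * Aq q N n) * e1 +
        ((-1 : ℝ) ^ (n + 1) * (2 * (n + 1) + 1) * Aq q N (n + 2)) * e2
    rw [Finset.sum_congr rfl h2, Aq_rec_zero h0 h1]
    simp only [Finset.sum_add_distrib, ← Finset.mul_sum]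
    -- identify the three sums
    have s1 : ∑ n ∈ Finset.range (N + 1), Tq q (n + 1) * Aq q N (n + 1) =
        (∑ n ∈ Finset.range (N + 1), Tq q n * Aq q N n) - Tq q 0 * Aq q N 0 := by
      have := Finset.sum_range_succ' (fun n => Tq q n * Aq q N n) (N + 1)
      rw [Finset.sum_range_succ, hA (N + 1) (by omega), mul_zero, add_zero] at this
      linarith
    have s3 : ∑ n ∈ Finset.range (N + 1), -((-1) ^ (n + 2) * (2 * ((n + 2 : ℕ) : ℝ) - 1) *
        q ^ tri (n + 2)) * Aq q N (n + 2) =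
        (∑ n ∈ Finset.range (N + 1), -((-1) ^ n * (2 * (n : ℝ) - 1) * q ^ tri n) * Aq q N n) -
          Aq q N 0 - (q * Aq q N 1) := by
      have h3 := sum_shift_two N (fun n : ℕ => -((-1) ^ n * (2 * (n : ℝ) - 1) * q ^ tri n) *
        Aq q N n) (by rw [hA (N + 1) (by omega), mul_zero])
        (by rw [hA (N + 2) (by omega), mul_zero])
      rw [h3]
      simp only [tri]
      push_cast
      ring
    rw [s1, s3, ih]
    have s2 : ∑ n ∈ Finset.range (N + 1), -((-1) ^ n * (2 * (n : ℝ) + 3) * q ^ tri n) * Aq q N n +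
        ∑ n ∈ Finset.range (N + 1), -((-1) ^ n * (2 * (n : ℝ) - 1) * q ^ tri n) * Aq q N n =
        -2 * Pq q N ^ 2 := by
      rw [← ih, ← Finset.sum_add_distrib, Finset.mul_sum]
      refine Finset.sum_congr rfl fun n _ => ?_
      unfold Tq
      ring
    have hT0 : Tq q 0 = 1 := by simp [Tq, tri]
    rw [hT0, Pq_succ]
    linear_combination q ^ (N + 1) * s2

/-! ### the infinite product -/

/-- `(q)_∞` -/
noncomputable def Lq (q : ℝ) : ℝ := ⨅ N, Pq q N

lemma tendsto_Pq (h0 : 0 < q) (h1 : q < 1) : Tendsto (Pq q) atTop (𝓝 (Lq q)) :=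
  tendsto_atTop_ciInf (Pq_anti h0 h1) ⟨0, by rintro _ ⟨N, rfl⟩; exact (Pq_pos h0 h1 N).le⟩

lemma Pq_tail (h0 : 0 < q) (h1 : q < 1) (K N : ℕ) :
    Pq q K * (1 - ∑ m ∈ Finset.range N, q ^ (K + m + 1)) ≤ Pq q (K + N) := by
  induction N with
  | zero => simp
  | succ N ih =>
    rw [← add_assoc, Pq_succ, Finset.sum_range_succ]
    have h2 := Pq_pos h0 h1 K
    have h3 := Pq_pos h0 h1 (K + N)
    have h4 : Pq q (K + N) ≤ Pq q K := Pq_anti h0 h1 (by omega)
    have h5 : 0 < q ^ (K + N + 1) := by positivity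
    have h6 := mul_le_mul_of_nonneg_right h4 h5.le
    nlinarith

lemma Lq_pos (h0 : 0 < q) (h1 : q < 1) : 0 < Lq q := by
  have hq1 : 0 < 1 - q := by linarith
  obtain ⟨K, hK⟩ : ∃ K : ℕ, q ^ K < (1 - q) / 2 :=
    exists_pow_lt_of_lt_one (by positivity) h1
  have h2 : ∀ N, Pq q K * (1 / 2) ≤ Pq q (K + N) := by
    intro N
    refine le_trans ?_ (Pq_tail h0 h1 K N)
    refine mul_le_mul_of_nonneg_left ?_ (Pq_pos h0 h1 K).le
    have h3 : ∑ m ∈ Finset.range N, q ^ (K + m + 1) = q ^ K * q * ∑ m ∈ Finset.range N, q ^ m := by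
      rw [Finset.mul_sum]
      refine Finset.sum_congr rfl fun m _ => ?_
      rw [pow_add, pow_add]; ring
    have h4 : (∑ m ∈ Finset.range N, q ^ m) ≤ (1 - q)⁻¹ := by
      rw [← tsum_geometric_of_lt_one h0.le h1]
      exact (summable_geometric_of_lt_one h0.le h1).sum_le_tsum _ (fun i _ => by positivity)
    have h5 : q ^ K * q * ∑ m ∈ Finset.range N, q ^ m ≤ 1 / 2 := by
      calc q ^ K * q * ∑ m ∈ Finset.range N, q ^ m ≤ ((1 - q) / 2) * 1 * (1 - q)⁻¹ := by
            gcongr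
        _ = 1 / 2 := by field_simp
    rw [h3]
    linarith
  have h3 : Pq q K * (1 / 2) ≤ Lq q := by
    refine ge_of_tendsto (tendsto_Pq h0 h1) ?_
    filter_upwards [eventually_ge_atTop K] with N hN
    have := h2 (N - K)
    rwa [show K + (N - K) = N by omega] at this
  have := Pq_pos h0 h1 K
  linarith

lemma summable_lin (h0 : 0 < q) (h1 : q < 1) : Summable fun n : ℕ => (2 * (n : ℝ) + 1) * q ^ n := by
  have h2 : Summable fun n : ℕ => (n : ℝ) * q ^ n := by
    have := summable_pow_mul_geometric_of_norm_lt_one 1 (r := q)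
      (by rw [Real.norm_of_nonneg h0.le]; exact h1)
    simpa using this
  have h3 := (h2.mul_left 2).add (summable_geometric_of_lt_one h0.le h1)
  refine h3.congr fun n => ?_
  ring

lemma le_tri (n : ℕ) : n ≤ tri n := by
  induction n with
  | zero => exact le_rfl
  | succ n ih => simp only [tri]; omega

lemma abs_Tq_le (h0 : 0 < q) (h1 : q < 1) (n : ℕ) : |Tq q n| ≤ (2 * (n : ℝ) + 1) * q ^ n := by
  unfold Tq
  rw [abs_mul, abs_mul, abs_pow, abs_neg, abs_one, one_pow, one_mul,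
    abs_of_pos (by positivity : (0 : ℝ) < 2 * n + 1), abs_of_pos (by positivity : 0 < q ^ tri n)]
  exact mul_le_mul_of_nonneg_left (pow_le_pow_of_le_one h0.le h1.le (le_tri n)) (by positivity)

/-- **Jacobi's identity** `∑ (-1)^n (2n+1) q^{n(n+1)/2} = (q)_∞ ^ 3`. -/
theorem jacobi (h0 : 0 < q) (h1 : q < 1) : HasSum (Tq q) (Lq q ^ 3) := by
  have hsum : Summable (Tq q) :=
    Summable.of_norm_bounded (summable_lin h0 h1) (fun n => abs_Tq_le h0 h1 n)
  have hL := Lq_pos h0 h1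
  have hPt := tendsto_Pq h0 h1
  have key : Tendsto (fun N => ∑' n, Tq q n * (Aq q N n * Pq q N)) atTop (𝓝 (∑' n, Tq q n)) := by
    refine tendsto_tsum_of_dominated_convergence (bound := fun n => (2 * (n : ℝ) + 1) * q ^ n)
      (summable_lin h0 h1) ?_ ?_
    · intro n
      have h2 : Tendsto (fun N => Aq q N n * Pq q N) atTop (𝓝 1) := by
        have h3 : Tendsto (fun N => Pq q (2 * N + 1) / (Pq q (N - n) * Pq q (N + n + 1)) * Pq q N)
            atTop (𝓝 (Lq q / (Lq q * Lq q) * Lq q)) := by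
          have t1 : Tendsto (fun N : ℕ => 2 * N + 1) atTop atTop :=
            tendsto_atTop_mono (fun N => by show N ≤ 2 * N + 1; omega) tendsto_id
          have t2 : Tendsto (fun N : ℕ => N - n) atTop atTop := tendsto_sub_atTop_nat n
          have t3 : Tendsto (fun N : ℕ => N + n + 1) atTop atTop :=
            tendsto_atTop_mono (fun N => by show N ≤ N + n + 1; omega) tendsto_id
          exact ((hPt.comp t1).div ((hPt.comp t2).mul (hPt.comp t3)) (by positivity)).mul hPt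
        have e : Lq q / (Lq q * Lq q) * Lq q = 1 := by field_simp
        rw [e] at h3
        refine h3.congr' ?_
        filter_upwards [eventually_ge_atTop n] with N hN
        rw [Aq_le hN]
      have h4 := h2.const_mul (Tq q n)
      rwa [mul_one] at h4
    · refine Eventually.of_forall fun N n => ?_
      rw [Real.norm_eq_abs, abs_mul]
      refine le_trans (mul_le_of_le_one_right (abs_nonneg _) ?_) (abs_Tq_le h0 h1 n)
      by_cases h : n ≤ N
      · rw [Aq_le h]
        have p1 := Pq_pos h0 h1 (2 * N + 1)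
        have p2 := Pq_pos h0 h1 (N - n)
        have p3 := Pq_pos h0 h1 (N + n + 1)
        have p4 := Pq_pos h0 h1 N
        rw [abs_of_pos (by positivity), div_mul_eq_mul_div, div_le_one (by positivity)]
        have q1 : Pq q (2 * N + 1) ≤ Pq q (N + n + 1) := Pq_anti h0 h1 (by omega)
        have q2 : Pq q N ≤ Pq q (N - n) := Pq_anti h0 h1 (by omega)
        calc Pq q (2 * N + 1) * Pq q N ≤ Pq q (N + n + 1) * Pq q (N - n) :=
              mul_le_mul q1 q2 p4.le p3.le
          _ = _ := mul_comm _ _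
      · rw [Aq_gt (by omega)]; simp
  have hfin : ∀ N, ∑' n, Tq q n * (Aq q N n * Pq q N) = Pq q N ^ 3 := by
    intro N
    rw [tsum_eq_sum (s := Finset.range (N + 1))]
    · have := jacobi_finite h0 h1 N
      calc ∑ n ∈ Finset.range (N + 1), Tq q n * (Aq q N n * Pq q N) =
          (∑ n ∈ Finset.range (N + 1), Tq q n * Aq q N n) * Pq q N := by
            rw [Finset.sum_mul]; refine Finset.sum_congr rfl fun n _ => by ring
        _ = _ := by rw [this]; ring
    · intro n hn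
      rw [Aq_gt (by have := Finset.mem_range.not.1 hn; omega)]
      ring
  simp only [hfin] at key
  have h5 := tendsto_nhds_unique key (hPt.pow 3)
  rw [← h5]
  exact hsum.hasSum

/-! ### log-concavity of the product in the exponent -/

/-- the exponential nome -/
noncomputable def nome (t : ℝ) : ℝ := Real.exp (-(Real.pi ^ 2 * t))

lemma nome_pos (t : ℝ) : 0 < nome t := Real.exp_pos _

lemma nome_lt_one {t : ℝ} (ht : 0 < t) : nome t < 1 := by
  unfold nome
  rw [Real.exp_lt_one_iff]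
  have := Real.pi_pos
  have : 0 < Real.pi ^ 2 * t := by positivity
  linarith

lemma nome_add (s t : ℝ) : nome (s + t) = nome s * nome t := by
  unfold nome; rw [← Real.exp_add]; congr 1; ring

lemma nome_anti {s t : ℝ} (h : s < t) : nome t < nome s := by
  unfold nome
  rw [Real.exp_lt_exp]
  have := Real.pi_pos
  have : 0 < Real.pi ^ 2 := by positivity
  nlinarith

lemma fac_ineq {s t u : ℝ} (hst : s < t) (hu : 0 < u) (m : ℕ) :
    (1 - nome s ^ (m + 1)) * (1 - nome (t + u) ^ (m + 1)) <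
      (1 - nome t ^ (m + 1)) * (1 - nome (s + u) ^ (m + 1)) := by
  rw [nome_add, nome_add, mul_pow, mul_pow]
  have h1 : nome t ^ (m + 1) < nome s ^ (m + 1) :=
    pow_lt_pow_left₀ (nome_anti hst) (nome_pos t).le (Nat.succ_ne_zero m)
  have h2 : nome u ^ (m + 1) < 1 := pow_lt_one₀ (nome_pos u).le (nome_lt_one hu)
    (Nat.succ_ne_zero m)
  nlinarith [mul_pos (sub_pos.2 h1) (sub_pos.2 h2)]

/-- partial products without the first factor -/
noncomputable def Rq (q : ℝ) (N : ℕ) : ℝ := ∏ m ∈ Finset.range N, (1 - q ^ (m + 1 + 1))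

lemma Pq_eq_Rq (q : ℝ) (N : ℕ) : Pq q (N + 1) = Rq q N * (1 - q) := by
  unfold Pq Rq
  rw [Finset.prod_range_succ']
  simp

lemma Rq_pos (h0 : 0 < q) (h1 : q < 1) (N : ℕ) : 0 < Rq q N :=
  Finset.prod_pos fun m _ => fac_pos h0 h1 (m + 1)

lemma Rq_ineq {s t u : ℝ} (hs : 0 < s) (hst : s < t) (hu : 0 < u) (N : ℕ) :
    Rq (nome s) N * Rq (nome (t + u)) N ≤ Rq (nome t) N * Rq (nome (s + u)) N := by
  unfold Rq
  rw [← Finset.prod_mul_distrib, ← Finset.prod_mul_distrib]
  refine Finset.prod_le_prod (fun m _ => ?_) fun m _ => (fac_ineq hst hu (m + 1)).le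
  exact mul_nonneg (fac_pos (nome_pos _) (nome_lt_one hs) _).le
    (fac_pos (nome_pos _) (nome_lt_one (by linarith)) _).le

lemma tendsto_Rq (h0 : 0 < q) (h1 : q < 1) : Tendsto (Rq q) atTop (𝓝 (Lq q / (1 - q))) := by
  have h2 := (tendsto_Pq h0 h1).comp (tendsto_add_atTop_nat 1)
  have h3 := h2.div_const (1 - q)
  refine h3.congr fun N => ?_
  simp only [Function.comp_apply]
  rw [Pq_eq_Rq]
  have : (1 - q) ≠ 0 := by linarith
  field_simp

theorem Lq_ineq {s t u : ℝ} (hs : 0 < s) (hst : s < t) (hu : 0 < u) :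
    Lq (nome s) * Lq (nome (t + u)) < Lq (nome t) * Lq (nome (s + u)) := by
  have hs1 := nome_lt_one hs
  have ht1 := nome_lt_one (hs.trans hst)
  have hsu1 := nome_lt_one (show 0 < s + u by linarith)
  have htu1 := nome_lt_one (show 0 < t + u by linarith)
  have h1 := le_of_tendsto_of_tendsto' ((tendsto_Rq (nome_pos s) hs1).mul
    (tendsto_Rq (nome_pos (t + u)) htu1)) ((tendsto_Rq (nome_pos t) ht1).mul
    (tendsto_Rq (nome_pos (s + u)) hsu1)) (fun N => Rq_ineq hs hst hu N)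
  have h2 := fac_ineq hst hu 0
  simp only [zero_add, pow_one] at h2
  have a1 : 0 < 1 - nome s := by linarith
  have a2 : 0 < 1 - nome t := by linarith
  have a3 : 0 < 1 - nome (s + u) := by linarith
  have a4 : 0 < 1 - nome (t + u) := by linarith
  have l2 := Lq_pos (nome_pos t) ht1
  have l3 := Lq_pos (nome_pos (s + u)) hsu1
  have h3 : Lq (nome s) * Lq (nome (t + u)) ≤ (Lq (nome t) / (1 - nome t) *
      (Lq (nome (s + u)) / (1 - nome (s + u)))) * ((1 - nome s) * (1 - nome (t + u))) := by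
    calc Lq (nome s) * Lq (nome (t + u)) = (Lq (nome s) / (1 - nome s) *
          (Lq (nome (t + u)) / (1 - nome (t + u)))) * ((1 - nome s) * (1 - nome (t + u))) := by
          field_simp
      _ ≤ _ := mul_le_mul_of_nonneg_right h1 (by positivity)
  refine h3.trans_lt ?_
  calc (Lq (nome t) / (1 - nome t) * (Lq (nome (s + u)) / (1 - nome (s + u)))) *
        ((1 - nome s) * (1 - nome (t + u))) <
        (Lq (nome t) / (1 - nome t) * (Lq (nome (s + u)) / (1 - nome (s + u)))) *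
        ((1 - nome t) * (1 - nome (s + u))) := mul_lt_mul_of_pos_left h2 (by positivity)
    _ = _ := by field_simp

end Pool.Agent.V11330.ET
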