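import Pool.Agent.V11330.ET.Jacobi

set_option autoImplicit false

open Set Filter Topology MeasureTheory
open scoped NNReal ENNReal

namespace Pool.Agent.V11330.ET

/-- the decay rates -/
noncomputable def lam (n : ℕ) : ℝ := (2 * n + 1) ^ 2 * Real.pi ^ 2 / 8

lemma lam_pos (n : ℕ) : 0 < lam n := by unfold lam; have := Real.pi_pos; positivity

lemma lam_ge (n : ℕ) : lam 0 + n ≤ lam n := by
  unfold lam
  have h1 := Real.pi_gt_three
  have h2 : 9 < Real.pi ^ 2 := by nlinarith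
  have h3 : (0 : ℝ) ≤ n := Nat.cast_nonneg n
  push_cast
  nlinarith [mul_nonneg h3 (by linarith : 0 ≤ Real.pi ^ 2 - 9), mul_nonneg (mul_nonneg h3 h3) (by linarith : 0 ≤ Real.pi ^ 2 - 9), mul_nonneg h3 h3]

/-- the density of the exit time -/
noncomputable def fdens (t : ℝ) : ℝ :=
  ∑' n : ℕ, Real.pi / 2 * ((-1) ^ n * (2 * n + 1) * Real.exp (-(lam n * t)))

/-- the survival function -/
noncomputable def gsurv (t : ℝ) : ℝ :=
  ∑' n : ℕ, 4 / Real.pi * ((-1) ^ n / (2 * n + 1) * Real.exp (-(lam n * t)))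

lemma exp_lam (n : ℕ) (t : ℝ) :
    Real.exp (-(lam n * t)) = Real.exp (-(Real.pi ^ 2 / 8 * t)) * nome t ^ tri n := by
  unfold nome
  rw [← Real.exp_nat_mul, ← Real.exp_add]
  congr 1
  have h : ((8 * tri n + 1 : ℕ) : ℝ) = ((2 * n + 1 : ℕ) : ℝ) ^ 2 := by exact_mod_cast tri_eq n
  push_cast at h
  unfold lam
  rw [← h]; ring

lemma fdens_eq {t : ℝ} (ht : 0 < t) :
    fdens t = Real.pi / 2 * (Real.exp (-(Real.pi ^ 2 / 8 * t)) * Lq (nome t) ^ 3) := by
  have h1 := (jacobi (nome_pos t) (nome_lt_one ht)).mul_left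
    (Real.pi / 2 * Real.exp (-(Real.pi ^ 2 / 8 * t)))
  unfold fdens
  rw [← mul_assoc, ← h1.tsum_eq]
  refine tsum_congr fun n => ?_
  rw [exp_lam]
  unfold Tq
  ring

lemma fdens_pos {t : ℝ} (ht : 0 < t) : 0 < fdens t := by
  rw [fdens_eq ht]
  have := Lq_pos (nome_pos t) (nome_lt_one ht)
  have := Real.pi_pos
  positivity

theorem fdens_ineq {s t u : ℝ} (hs : 0 < s) (hst : s < t) (hu : 0 < u) :
    fdens s * fdens (t + u) < fdens t * fdens (s + u) := by
  rw [fdens_eq hs, fdens_eq (hs.trans hst), fdens_eq (by linarith : 0 < s + u),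
    fdens_eq (by linarith : 0 < t + u)]
  have h1 := Lq_ineq hs hst hu
  have l1 := Lq_pos (nome_pos s) (nome_lt_one hs)
  have l2 := Lq_pos (nome_pos (t + u)) (nome_lt_one (by linarith))
  have h2 := pow_lt_pow_left₀ h1 (by positivity) (n := 3) (by norm_num)
  have h3 : Real.exp (-(Real.pi ^ 2 / 8 * s)) * Real.exp (-(Real.pi ^ 2 / 8 * (t + u))) =
      Real.exp (-(Real.pi ^ 2 / 8 * t)) * Real.exp (-(Real.pi ^ 2 / 8 * (s + u))) := by
    rw [← Real.exp_add, ← Real.exp_add]; congr 1; ring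
  have hp := Real.pi_pos
  calc _ = (Real.pi / 2) ^ 2 * (Real.exp (-(Real.pi ^ 2 / 8 * s)) *
        Real.exp (-(Real.pi ^ 2 / 8 * (t + u)))) * (Lq (nome s) * Lq (nome (t + u))) ^ 3 := by ring
    _ < (Real.pi / 2) ^ 2 * (Real.exp (-(Real.pi ^ 2 / 8 * s)) *
        Real.exp (-(Real.pi ^ 2 / 8 * (t + u)))) * (Lq (nome t) * Lq (nome (s + u))) ^ 3 :=
        mul_lt_mul_of_pos_left h2 (by positivity)
    _ = _ := by rw [h3]; ring

/-! ### derivative of the survival function -/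

lemma exp_lam_le {ε t : ℝ} (hε : ε ≤ t) (hε0 : 0 < ε) (n : ℕ) :
    Real.exp (-(lam n * t)) ≤ Real.exp (-ε) ^ n := by
  rw [← Real.exp_nat_mul]
  apply Real.exp_le_exp.2
  have h1 := lam_ge n
  have h2 := lam_pos 0
  have h3 : (0 : ℝ) ≤ n := Nat.cast_nonneg n
  have h4 := lam_pos n
  have h5 : (n : ℝ) * ε ≤ lam n * t := mul_le_mul (by linarith) hε hε0.le h4.le
  linarith

lemma exp_neg_lt_one {ε : ℝ} (h : 0 < ε) : Real.exp (-ε) < 1 := by
  rw [Real.exp_lt_one_iff]; linarith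

lemma gterm_bound {ε t : ℝ} (hε : ε ≤ t) (hε0 : 0 < ε) (n : ℕ) :
    ‖4 / Real.pi * ((-1) ^ n / (2 * n + 1) * Real.exp (-(lam n * t)))‖ ≤
      4 / Real.pi * Real.exp (-ε) ^ n := by
  have hp := Real.pi_pos
  rw [norm_mul, Real.norm_of_nonneg (by positivity : (0 : ℝ) ≤ 4 / Real.pi), norm_mul, norm_div,
    norm_pow, norm_neg, norm_one, one_pow,
    Real.norm_of_nonneg (by positivity : (0 : ℝ) ≤ 2 * (n : ℝ) + 1),
    Real.norm_of_nonneg (Real.exp_pos _).le]
  refine mul_le_mul_of_nonneg_left ?_ (by positivity)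
  have h1 : (1 : ℝ) / (2 * n + 1) ≤ 1 := by
    rw [div_le_one (by positivity)]; have : (0 : ℝ) ≤ n := Nat.cast_nonneg n; linarith
  calc 1 / (2 * (n : ℝ) + 1) * Real.exp (-(lam n * t)) ≤ 1 * Real.exp (-ε) ^ n :=
        mul_le_mul h1 (exp_lam_le hε hε0 n) (Real.exp_pos _).le (by norm_num)
    _ = _ := one_mul _

lemma summable_g {t : ℝ} (ht : 0 < t) :
    Summable fun n : ℕ => 4 / Real.pi * ((-1) ^ n / (2 * n + 1) * Real.exp (-(lam n * t))) := by
  refine Summable.of_norm_bounded ?_ (fun n => gterm_bound le_rfl ht n)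
  exact (summable_geometric_of_lt_one (Real.exp_pos _).le (exp_neg_lt_one ht)).mul_left _

lemma fterm_bound {ε t : ℝ} (hε : ε ≤ t) (hε0 : 0 < ε) (n : ℕ) :
    ‖-(Real.pi / 2 * ((-1) ^ n * (2 * n + 1) * Real.exp (-(lam n * t))))‖ ≤
      Real.pi / 2 * ((2 * n + 1) * Real.exp (-ε) ^ n) := by
  have hp := Real.pi_pos
  rw [norm_neg, norm_mul, norm_mul, norm_mul, norm_pow, norm_neg, norm_one, one_pow, one_mul,
    Real.norm_of_nonneg (by positivity : (0 : ℝ) ≤ Real.pi / 2),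
    Real.norm_of_nonneg (by positivity : (0 : ℝ) ≤ 2 * (n : ℝ) + 1),
    Real.norm_of_nonneg (Real.exp_pos _).le]
  refine mul_le_mul_of_nonneg_left ?_ (by positivity)
  exact mul_le_mul_of_nonneg_left (exp_lam_le hε hε0 n) (by positivity)

lemma hasDerivAt_term (n : ℕ) (y : ℝ) :
    HasDerivAt (fun y : ℝ => 4 / Real.pi * ((-1) ^ n / (2 * n + 1) * Real.exp (-(lam n * y))))
      (-(Real.pi / 2 * ((-1) ^ n * (2 * n + 1) * Real.exp (-(lam n * y))))) y := by
  have e1 : HasDerivAt (fun y : ℝ => Real.exp (-(lam n * y)))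
      (Real.exp (-(lam n * y)) * (-(lam n * 1))) y :=
    (((hasDerivAt_id y).const_mul (lam n)).neg).exp
  have e2 := (e1.const_mul ((-1 : ℝ) ^ n / (2 * n + 1))).const_mul (4 / Real.pi)
  have e3 : -(Real.pi / 2 * ((-1) ^ n * (2 * n + 1) * Real.exp (-(lam n * y)))) =
      4 / Real.pi * ((-1 : ℝ) ^ n / (2 * n + 1) * (Real.exp (-(lam n * y)) * (-(lam n * 1)))) := by
    have hp := Real.pi_pos.ne'
    have hn : (2 * (n : ℝ) + 1) ≠ 0 := by positivity
    generalize Real.exp (-(lam n * y)) = E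
    unfold lam
    field_simp
    ring
  rw [e3]
  exact e2

theorem hasDerivAt_gsurv {t : ℝ} (ht : 0 < t) : HasDerivAt gsurv (-fdens t) t := by
  have hε : 0 < t / 2 := by positivity
  have h1 : Summable fun n : ℕ => Real.pi / 2 * ((2 * (n : ℝ) + 1) * Real.exp (-(t / 2)) ^ n) :=
    (summable_lin (Real.exp_pos _) (exp_neg_lt_one hε)).mul_left _
  have h3 := hasDerivAt_tsum_of_isPreconnected (t := Ioi (t / 2)) (y₀ := t) (y := t)
    (g := fun (n : ℕ) (y : ℝ) => 4 / Real.pi * ((-1) ^ n / (2 * n + 1) * Real.exp (-(lam n * y))))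
    (g' := fun (n : ℕ) (y : ℝ) => -(Real.pi / 2 * ((-1) ^ n * (2 * n + 1) *
      Real.exp (-(lam n * y))))) h1 isOpen_Ioi isPreconnected_Ioi
    (fun n y _ => hasDerivAt_term n y) (fun n y hy => fterm_bound (le_of_lt hy) hε n)
    (mem_Ioi.2 (by linarith)) (summable_g ht) (mem_Ioi.2 (by linarith))
  have h2 : -fdens t = ∑' n : ℕ, -(Real.pi / 2 * ((-1) ^ n * (2 * n + 1) *
      Real.exp (-(lam n * t)))) := by
    unfold fdens; rw [tsum_neg]
  rw [h2]
  exact h3

lemma tendsto_gsurv : Tendsto gsurv atTop (𝓝 0) := by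
  have h0 : (0 : ℝ) = ∑' n : ℕ, (0 : ℝ) := by simp
  rw [h0]
  unfold gsurv
  refine tendsto_tsum_of_dominated_convergence
    (bound := fun n : ℕ => 4 / Real.pi * Real.exp (-1) ^ n) ?_ ?_ ?_
  · exact (summable_geometric_of_lt_one (Real.exp_pos _).le
      (exp_neg_lt_one one_pos)).mul_left _
  · intro n
    have h1 : Tendsto (fun t : ℝ => Real.exp (-(lam n * t))) atTop (𝓝 0) :=
      Real.tendsto_exp_neg_atTop_nhds_zero.comp (tendsto_id.const_mul_atTop (lam_pos n))
    have h2 := (h1.const_mul ((-1 : ℝ) ^ n / (2 * n + 1))).const_mul (4 / Real.pi)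
    simpa using h2
  · filter_upwards [eventually_ge_atTop 1] with t ht n
    exact gterm_bound ht one_pos n

lemma shift_facts {t : ℝ} (ht : 0 < t) :
    IntegrableOn (fun u => fdens (t + u)) (Ioi 0) ∧ ∫ u in Ioi 0, fdens (t + u) = gsurv t := by
  have hd : ∀ u ∈ Ici (0 : ℝ), HasDerivAt (fun u => -gsurv (t + u)) (fdens (t + u)) u := by
    intro u hu
    have hu' : 0 < t + u := by have := mem_Ici.1 hu; linarith
    have h1 := (hasDerivAt_gsurv hu').comp_const_add t u
    have h2 := h1.neg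
    rwa [neg_neg] at h2
  have hlim : Tendsto (fun u => -gsurv (t + u)) atTop (𝓝 (-0)) :=
    (tendsto_gsurv.comp (tendsto_atTop_add_const_left _ t tendsto_id)).neg
  have hpos : ∀ u ∈ Ioi (0 : ℝ), 0 ≤ fdens (t + u) := fun u hu =>
    (fdens_pos (by have := mem_Ioi.1 hu; linarith)).le
  have hcont : ContinuousWithinAt (fun u => -gsurv (t + u)) (Ici 0) 0 :=
    (hd 0 self_mem_Ici).continuousAt.continuousWithinAt
  have hd' : ∀ u ∈ Ioi (0 : ℝ), HasDerivAt (fun u => -gsurv (t + u)) (fdens (t + u)) u :=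
    fun u hu => hd u (mem_Ici.2 (le_of_lt (mem_Ioi.1 hu)))
  refine ⟨integrableOn_Ioi_deriv_of_nonneg hcont hd' hpos hlim, ?_⟩
  rw [integral_Ioi_of_hasDerivAt_of_nonneg hcont hd' hpos hlim]
  simp

lemma gsurv_pos {t : ℝ} (ht : 0 < t) : 0 < gsurv t := by
  obtain ⟨h1, h2⟩ := shift_facts ht
  rw [← h2, setIntegral_pos_iff_support_of_nonneg_ae ?_ h1]
  · have : Ioi (0 : ℝ) ⊆ Function.support (fun u => fdens (t + u)) ∩ Ioi 0 := by
      intro u hu
      exact ⟨(fdens_pos (by have := mem_Ioi.1 hu; linarith)).ne', hu⟩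
    refine lt_of_lt_of_le ?_ (measure_mono this)
    simp
  · rw [EventuallyLE, ae_restrict_iff' measurableSet_Ioi]
    exact ae_of_all _ fun u hu => (fdens_pos (by have := mem_Ioi.1 hu; linarith)).le

/-- the hazard rate is strictly increasing -/
theorem hazard {s t : ℝ} (hs : 0 < s) (hst : s < t) : fdens s * gsurv t < fdens t * gsurv s := by
  have ht := hs.trans hst
  obtain ⟨i1, e1⟩ := shift_facts hs
  obtain ⟨i2, e2⟩ := shift_facts ht
  have hi : IntegrableOn (fun u => fdens t * fdens (s + u) - fdens s * fdens (t + u)) (Ioi 0) :=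
    (i1.const_mul _).sub (i2.const_mul _)
  have h1 : 0 < ∫ u in Ioi 0, (fdens t * fdens (s + u) - fdens s * fdens (t + u)) := by
    rw [setIntegral_pos_iff_support_of_nonneg_ae ?_ hi]
    · have : Ioi (0 : ℝ) ⊆ Function.support
          (fun u => fdens t * fdens (s + u) - fdens s * fdens (t + u)) ∩ Ioi 0 := by
        intro u hu
        have := fdens_ineq hs hst (mem_Ioi.1 hu)
        exact ⟨(sub_pos.2 this).ne', hu⟩
      refine lt_of_lt_of_le ?_ (measure_mono this)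
      simp
    · rw [EventuallyLE, ae_restrict_iff' measurableSet_Ioi]
      exact ae_of_all _ fun u hu => (sub_pos.2 (fdens_ineq hs hst (mem_Ioi.1 hu))).le
  have h2 : ∫ u in Ioi 0, (fdens t * fdens (s + u) - fdens s * fdens (t + u)) =
      (∫ u in Ioi 0, fdens t * fdens (s + u)) - ∫ u in Ioi 0, fdens s * fdens (t + u) :=
    integral_sub (i1.const_mul _) (i2.const_mul _)
  rw [h2, integral_const_mul, integral_const_mul, e1, e2] at h1
  linarith

/-- **the survival function is strictly log-concave** -/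
theorem strictConcave_log : StrictConcaveOn ℝ (Ioi 0) (fun t => Real.log (gsurv t)) := by
  have hd : ∀ t, 0 < t → HasDerivAt (fun t => Real.log (gsurv t)) (-fdens t / gsurv t) t :=
    fun t ht => (hasDerivAt_gsurv ht).log (gsurv_pos ht).ne'
  refine StrictAntiOn.strictConcaveOn_of_deriv (convex_Ioi 0) ?_ ?_
  · intro t ht
    exact (hd t ht).continuousAt.continuousWithinAt
  · rw [interior_Ioi]
    intro s hs t ht hst
    rw [(hd s hs).deriv, (hd t ht).deriv, div_lt_div_iff₀ (gsurv_pos ht) (gsurv_pos hs)]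
    have := hazard hs hst
    linarith

end Pool.Agent.V11330.ET
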