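import Pool.Agent.V11330.ET.Exit
import Pool.Agent.V11330.ET.Surv

set_option autoImplicit false

open Set Filter Topology MeasureTheory ProbabilityTheory
open scoped NNReal ENNReal

namespace Pool.Agent.V11330.ET

open Pool.Agent.TH970

/-- the point `r e^{iθ}` -/
noncomputable def zz (r θ : ℝ) : ℂ := r * Complex.exp (θ * Complex.I)

/-- the Abel sum of the square wave -/
noncomputable def Sr (r θ : ℝ) : ℝ :=
  2 / Real.pi * Complex.arg ((1 + zz r θ * Complex.I) / (1 - zz r θ * Complex.I))

lemma norm_zz {r : ℝ} (hr : 0 ≤ r) (θ : ℝ) : ‖zz r θ‖ = r := by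
  unfold zz
  rw [norm_mul, Complex.norm_exp_ofReal_mul_I, mul_one, Complex.norm_real,
    Real.norm_of_nonneg hr]

lemma hasSum_Sr {r : ℝ} (hr : 0 ≤ r) (hr1 : r < 1) (θ : ℝ) :
    HasSum (fun n : ℕ => 4 / Real.pi * ((-1) ^ n / (2 * n + 1) *
      (r ^ (2 * n + 1) * Real.cos ((2 * n + 1) * θ)))) (Sr r θ) := by
  have h1 := Complex.hasSum_arctan (z := zz r θ) (by rw [norm_zz hr]; exact hr1)
  have h2 := (Complex.hasSum_re h1).mul_left (4 / Real.pi)
  have h3 : 4 / Real.pi * (Complex.arctan (zz r θ)).re = Sr r θ := by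
    unfold Sr Complex.arctan
    have : (-Complex.I / 2 * Complex.log ((1 + zz r θ * Complex.I) / (1 - zz r θ * Complex.I))).re
        = (Complex.log ((1 + zz r θ * Complex.I) / (1 - zz r θ * Complex.I))).im / 2 := by
      generalize Complex.log ((1 + zz r θ * Complex.I) / (1 - zz r θ * Complex.I)) = L
      simp [Complex.mul_re]
      ring
    rw [this, Complex.log_im]
    ring
  rw [h3] at h2
  have h4 : ∀ n : ℕ, 4 / Real.pi * ((-1) ^ n * zz r θ ^ (2 * n + 1) / ((2 * n + 1 : ℕ) : ℂ)).re =
      4 / Real.pi * ((-1) ^ n / (2 * n + 1) * (r ^ (2 * n + 1) * Real.cos ((2 * n + 1) * θ))) := by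
    intro n
    congr 1
    have e1 : zz r θ ^ (2 * n + 1) = ((r ^ (2 * n + 1) : ℝ) : ℂ) *
        Complex.exp (((2 * n + 1) * θ : ℝ) * Complex.I) := by
      unfold zz
      rw [mul_pow, ← Complex.exp_nat_mul]
      push_cast
      congr 2
      ring
    have e2 : (-1) ^ n * zz r θ ^ (2 * n + 1) / ((2 * n + 1 : ℕ) : ℂ) =
        (((-1) ^ n / (2 * n + 1) * r ^ (2 * n + 1) : ℝ) : ℂ) *
          Complex.exp (((2 * n + 1) * θ : ℝ) * Complex.I) := by
      rw [e1]; push_cast; ring
    rw [e2, Complex.re_ofReal_mul, Complex.exp_ofReal_mul_I_re]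
    ring
  simp only [h4] at h2
  exact h2

lemma abs_Sr_le (r θ : ℝ) : |Sr r θ| ≤ 2 := by
  unfold Sr
  have hp := Real.pi_pos
  rw [abs_mul, abs_of_pos (by positivity : 0 < 2 / Real.pi)]
  calc 2 / Real.pi * |Complex.arg ((1 + zz r θ * Complex.I) / (1 - zz r θ * Complex.I))| ≤
        2 / Real.pi * Real.pi :=
        mul_le_mul_of_nonneg_left (Complex.abs_arg_le_pi _) (by positivity)
    _ = 2 := by field_simp

lemma tendsto_Sr {θ : ℝ} (hθ : 0 < Real.cos θ) {r : ℕ → ℝ} (hr : Tendsto r atTop (𝓝 1)) :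
    Tendsto (fun m => Sr (r m) θ) atTop (𝓝 1) := by
  have hp := Real.pi_pos
  set c := Real.cos θ with hc
  set s := Real.sin θ with hs
  have hcs : s ^ 2 + c ^ 2 = 1 := Real.sin_sq_add_cos_sq θ
  have hs1 : 0 < 1 + s := by nlinarith
  have hz1 : zz 1 θ = (c : ℂ) + s * Complex.I := by
    unfold zz
    rw [Complex.ofReal_one, one_mul, Complex.exp_mul_I, ← Complex.ofReal_cos,
      ← Complex.ofReal_sin]
  have hden : 1 - zz 1 θ * Complex.I ≠ 0 := by
    intro h
    have := congrArg Complex.re h
    rw [hz1] at this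
    simp at this
    linarith
  obtain ⟨w, hw⟩ : ∃ w : ℝ, w * (1 + s) = c := ⟨c / (1 + s), by field_simp⟩
  have hwpos : 0 < w := by
    by_contra hcon
    push Not at hcon
    nlinarith
  have hW : (1 + zz 1 θ * Complex.I) / (1 - zz 1 θ * Complex.I) = (w : ℂ) * Complex.I := by
    rw [div_eq_iff hden, hz1]
    have hwc : w * c = 1 - s := by
      have h1 : w * c * (1 + s) = (1 - s) * (1 + s) := by nlinarith
      exact mul_right_cancel₀ hs1.ne' h1
    apply Complex.ext
    · simp
      linarith
    · simp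
      linarith
  have harg : Complex.arg ((1 + zz 1 θ * Complex.I) / (1 - zz 1 θ * Complex.I)) =
      Real.pi / 2 := by
    rw [hW, Complex.arg_real_mul _ hwpos, Complex.arg_I]
  have hcont : ContinuousAt (fun r : ℝ => Sr r θ) 1 := by
    unfold Sr
    refine ContinuousAt.mul continuousAt_const ?_
    refine ContinuousAt.comp (g := Complex.arg)
      (f := fun r : ℝ => (1 + zz r θ * Complex.I) / (1 - zz r θ * Complex.I)) ?_ ?_
    · apply Complex.continuousAt_arg
      rw [hW, Complex.mem_slitPlane_iff]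
      right
      simp [hwpos.ne']
    · have hz : Continuous fun r : ℝ => zz r θ := by unfold zz; fun_prop
      exact ContinuousAt.div (by fun_prop) (by fun_prop) hden
  have h1 : Sr 1 θ = 1 := by
    unfold Sr
    rw [harg]; field_simp
  have := hcont.tendsto.comp hr
  rw [h1] at this
  exact this

section
variable {Ω : Type*} [MeasurableSpace Ω] {P : Measure Ω} [IsProbabilityMeasure P]
  {X : ℝ≥0 → Ω → ℝ}

lemma measurable_Sr (r : ℝ) : Measurable (Sr r) := by
  unfold Sr zz
  have : Measurable Complex.arg := Complex.measurable_arg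
  fun_prop

/-- **the survival function of Brownian motion in an interval** -/
theorem surv_formula (hX : CBM P X) {t : ℝ≥0} (ht : 0 < t) {a : ℝ} (ha : 0 < a) :
    P.real {ω | am (path X ω) t < a} = gsurv (t / a ^ 2) := by
  have hp := Real.pi_pos
  set A : Set Ω := {ω | am (path X ω) t < a} with hA
  have hAm : MeasurableSet A :=
    measurableSet_lt ((measurable_am t).comp hX.mpath) measurable_const
  set u : ℝ := t / a ^ 2 with hu
  have ht' : (0 : ℝ) < t := ht
  have hu0 : 0 < u := by positivity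
  -- the sequence of radii
  set r : ℕ → ℝ := fun m => 1 - 1 / ((m : ℝ) + 2) with hr
  have hr0 : ∀ m, 0 ≤ r m := by
    intro m
    have h1 : (1 : ℝ) / ((m : ℝ) + 2) ≤ 1 := by
      rw [div_le_one (by positivity)]
      have : (0 : ℝ) ≤ m := Nat.cast_nonneg m
      linarith
    simp only [hr]; linarith
  have hr1 : ∀ m, r m < 1 := by
    intro m
    have h1 : (0 : ℝ) < 1 / ((m : ℝ) + 2) := by positivity
    simp only [hr]; linarith
  have hrlim : Tendsto r atTop (𝓝 1) := by
    have h1 : Tendsto (fun m : ℕ => (1 : ℝ) / ((m : ℝ) + 2)) atTop (𝓝 0) := by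
      have h2 := tendsto_one_div_add_atTop_nhds_zero_nat (𝕜 := ℝ)
      have h3 := h2.comp (tendsto_add_atTop_nat 1)
      refine h3.congr fun m => ?_
      simp only [Function.comp_apply]
      push_cast
      ring_nf
    have := h1.const_sub 1
    simpa [hr] using this
  -- the integral of each term
  have hterm : ∀ n : ℕ, ∫ ω in A, Real.cos ((2 * n + 1) * (Real.pi * X t ω / (2 * a))) ∂P =
      Real.exp (-(lam n * u)) := by
    intro n
    have hκ : 0 ≤ (2 * (n : ℝ) + 1) * Real.pi / (2 * a) := by positivity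
    have hcos : Real.cos ((2 * (n : ℝ) + 1) * Real.pi / (2 * a) * a) = 0 := by
      rw [Real.cos_eq_zero_iff]
      refine ⟨n, ?_⟩
      push_cast
      field_simp
    have h1 := killed_cos hX ht ha hκ hcos
    have e1 : (fun ω => Real.cos ((2 * (n : ℝ) + 1) * (Real.pi * X t ω / (2 * a)))) =
        fun ω => Real.cos ((2 * (n : ℝ) + 1) * Real.pi / (2 * a) * X t ω) := by
      funext ω; congr 1; ring
    rw [e1, h1]
    congr 1
    rw [hu]
    unfold lam
    field_simp
    ring
  -- the interchange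
  have hF : ∀ m, ∫ ω in A, Sr (r m) (Real.pi * X t ω / (2 * a)) ∂P =
      ∑' n : ℕ, r m ^ (2 * n + 1) *
        (4 / Real.pi * ((-1) ^ n / (2 * n + 1) * Real.exp (-(lam n * u)))) := by
    intro m
    have h1 := hasSum_integral_of_dominated_convergence (μ := P.restrict A)
      (F := fun (n : ℕ) ω => 4 / Real.pi * ((-1) ^ n / (2 * n + 1) *
        (r m ^ (2 * n + 1) * Real.cos ((2 * n + 1) * (Real.pi * X t ω / (2 * a))))))
      (f := fun ω => Sr (r m) (Real.pi * X t ω / (2 * a)))
      (fun n _ => 4 / Real.pi * r m ^ n) ?_ ?_ ?_ ?_ ?_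
    · rw [← h1.tsum_eq]
      refine tsum_congr fun n => ?_
      rw [integral_const_mul, integral_const_mul, integral_const_mul, hterm]
      ring
    · intro n
      have := hX.meas t
      exact Measurable.aestronglyMeasurable (by fun_prop)
    · intro n
      refine ae_of_all _ fun ω => ?_
      rw [norm_mul, Real.norm_of_nonneg (by positivity : (0 : ℝ) ≤ 4 / Real.pi)]
      refine mul_le_mul_of_nonneg_left ?_ (by positivity)
      rw [norm_mul, norm_div, norm_pow, norm_neg, norm_one, one_pow,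
        Real.norm_of_nonneg (by positivity : (0 : ℝ) ≤ 2 * (n : ℝ) + 1), norm_mul, norm_pow,
        Real.norm_of_nonneg (hr0 m)]
      have h1 : (1 : ℝ) / (2 * n + 1) ≤ 1 := by
        rw [div_le_one (by positivity)]; have : (0 : ℝ) ≤ n := Nat.cast_nonneg n; linarith
      have h2 : r m ^ (2 * n + 1) ≤ r m ^ n := pow_le_pow_of_le_one (hr0 m) (hr1 m).le (by omega)
      have h3 : ‖Real.cos ((2 * (n : ℝ) + 1) * (Real.pi * X t ω / (2 * a)))‖ ≤ 1 :=
        Real.abs_cos_le_one _
      have h4 : 0 ≤ r m ^ (2 * n + 1) := pow_nonneg (hr0 m) _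
      calc 1 / (2 * (n : ℝ) + 1) * (r m ^ (2 * n + 1) *
            ‖Real.cos ((2 * (n : ℝ) + 1) * (Real.pi * X t ω / (2 * a)))‖) ≤
            1 * (r m ^ n * 1) :=
            mul_le_mul h1 (mul_le_mul h2 h3 (norm_nonneg _) (pow_nonneg (hr0 m) _))
              (mul_nonneg h4 (norm_nonneg _)) zero_le_one
        _ = r m ^ n := by ring
    · refine ae_of_all _ fun ω => ?_
      exact (summable_geometric_of_lt_one (hr0 m) (hr1 m)).mul_left _
    · exact integrable_const _
    · exact ae_of_all _ fun ω => hasSum_Sr (hr0 m) (hr1 m) _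
  -- left limit
  have hL : Tendsto (fun m => ∫ ω in A, Sr (r m) (Real.pi * X t ω / (2 * a)) ∂P) atTop
      (𝓝 (P.real A)) := by
    have h0 : P.real A = ∫ _ω in A, (1 : ℝ) ∂P := by simp
    rw [h0]
    refine tendsto_integral_of_dominated_convergence (fun _ => 2) ?_ (integrable_const _) ?_ ?_
    · intro m
      have := hX.meas t
      have h2 := measurable_Sr (r m)
      exact Measurable.aestronglyMeasurable (by fun_prop)
    · intro m
      exact ae_of_all _ fun ω => abs_Sr_le _ _
    · rw [ae_restrict_iff' hAm]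
      refine ae_of_all _ fun ω hω => ?_
      refine tendsto_Sr ?_ hrlim
      have h1 : |X t ω| < a := lt_of_le_of_lt (le_am (hX.cont ω) le_rfl) hω
      rw [abs_lt] at h1
      apply Real.cos_pos_of_mem_Ioo
      constructor
      · rw [lt_div_iff₀ (by positivity)]
        nlinarith
      · rw [div_lt_iff₀ (by positivity)]
        nlinarith
  -- right limit
  have hR : Tendsto (fun m => ∑' n : ℕ, r m ^ (2 * n + 1) *
        (4 / Real.pi * ((-1) ^ n / (2 * n + 1) * Real.exp (-(lam n * u))))) atTop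
      (𝓝 (gsurv u)) := by
    unfold gsurv
    refine tendsto_tsum_of_dominated_convergence
      (bound := fun n : ℕ => 4 / Real.pi * Real.exp (-u) ^ n) ?_ ?_ ?_
    · exact (summable_geometric_of_lt_one (Real.exp_pos _).le (exp_neg_lt_one hu0)).mul_left _
    · intro n
      have h1 := (hrlim.pow (2 * n + 1)).mul_const
        (4 / Real.pi * ((-1) ^ n / (2 * n + 1) * Real.exp (-(lam n * u))))
      rwa [one_pow, one_mul] at h1
    · refine Eventually.of_forall fun m n => ?_
      rw [norm_mul, norm_pow, Real.norm_of_nonneg (hr0 m)]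
      calc r m ^ (2 * n + 1) * _ ≤ 1 * (4 / Real.pi * Real.exp (-u) ^ n) := by
            refine mul_le_mul (pow_le_one₀ (hr0 m) (hr1 m).le) (gterm_bound le_rfl hu0 n)
              (norm_nonneg _) zero_le_one
        _ = _ := one_mul _
  simp only [hF] at hL
  exact tendsto_nhds_unique hL hR

end

end Pool.Agent.V11330.ET
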