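import Pool.Agent.V11330.ET.Abel

set_option autoImplicit false

open Set Filter Topology MeasureTheory ProbabilityTheory
open scoped NNReal ENNReal

namespace Pool.Agent.V11330.ET

open Pool.Agent.TH970

lemma gsurv_decay {t : ℝ} (ht : 1 ≤ t) :
    gsurv t ≤ 4 / Real.pi * (1 - Real.exp (-1))⁻¹ * Real.exp (-t) := by
  have hp := Real.pi_pos
  have h1 : ∀ n : ℕ, ‖4 / Real.pi * ((-1) ^ n / (2 * n + 1) * Real.exp (-(lam n * t)))‖ ≤
      4 / Real.pi * Real.exp (-t) * Real.exp (-1) ^ n := by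
    intro n
    rw [norm_mul, Real.norm_of_nonneg (by positivity : (0 : ℝ) ≤ 4 / Real.pi), norm_mul, norm_div,
      norm_pow, norm_neg, norm_one, one_pow,
      Real.norm_of_nonneg (by positivity : (0 : ℝ) ≤ 2 * (n : ℝ) + 1),
      Real.norm_of_nonneg (Real.exp_pos _).le, mul_assoc]
    refine mul_le_mul_of_nonneg_left ?_ (by positivity)
    have h1 : (1 : ℝ) / (2 * n + 1) ≤ 1 := by
      rw [div_le_one (by positivity)]; have : (0 : ℝ) ≤ n := Nat.cast_nonneg n; linarith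
    have h2 : Real.exp (-(lam n * t)) ≤ Real.exp (-t) * Real.exp (-1) ^ n := by
      rw [← Real.exp_nat_mul, ← Real.exp_add]
      apply Real.exp_le_exp.2
      have h3 := lam_ge n
      have h4 : 1 ≤ lam 0 := by
        unfold lam
        have := Real.pi_gt_three
        push_cast
        nlinarith
      have h5 : (0 : ℝ) ≤ n := Nat.cast_nonneg n
      nlinarith [mul_nonneg h5 (by linarith : 0 ≤ t - 1), mul_nonneg (by linarith : 0 ≤ lam n - 1 - n) (by linarith : 0 ≤ t)]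
    calc 1 / (2 * (n : ℝ) + 1) * Real.exp (-(lam n * t)) ≤ 1 * (Real.exp (-t) * Real.exp (-1) ^ n) :=
          mul_le_mul h1 h2 (Real.exp_pos _).le (by norm_num)
      _ = _ := one_mul _
  have hs : Summable fun n : ℕ => 4 / Real.pi * Real.exp (-t) * Real.exp (-1) ^ n :=
    (summable_geometric_of_lt_one (Real.exp_pos _).le (exp_neg_lt_one one_pos)).mul_left _
  have hsum : ∑' n : ℕ, 4 / Real.pi * Real.exp (-t) * Real.exp (-1) ^ n =
      4 / Real.pi * Real.exp (-t) * (1 - Real.exp (-1))⁻¹ := by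
    rw [tsum_mul_left, tsum_geometric_of_lt_one (Real.exp_pos _).le (exp_neg_lt_one one_pos)]
  have h2 := tsum_of_norm_bounded hs.hasSum h1
  rw [hsum] at h2
  unfold gsurv
  refine (le_abs_self _).trans (h2.trans (le_of_eq ?_))
  ring

lemma gsurv_exp_bound (hg1 : ∀ t, 0 < t → gsurv t ≤ 1) :
    ∃ C : ℝ, 0 < C ∧ ∀ t, 0 < t → gsurv t ≤ C * Real.exp (-t) := by
  have hp := Real.pi_pos
  have h1 : 0 < 4 / Real.pi * (1 - Real.exp (-1))⁻¹ := by
    have : 0 < 1 - Real.exp (-1) := by have := exp_neg_lt_one (one_pos (α := ℝ)); linarith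
    positivity
  refine ⟨4 / Real.pi * (1 - Real.exp (-1))⁻¹ + Real.exp 1, by positivity, fun t ht => ?_⟩
  rcases le_or_gt 1 t with h | h
  · refine (gsurv_decay h).trans ?_
    have := Real.exp_pos (1 : ℝ)
    gcongr
    linarith
  · refine (hg1 t ht).trans ?_
    have h2 : 1 ≤ Real.exp 1 * Real.exp (-t) := by
      rw [← Real.exp_add]
      exact Real.one_le_exp (by linarith)
    have h3 := Real.exp_pos (-t)
    nlinarith [mul_pos h1 h3]

lemma continuousOn_gsurv : ContinuousOn gsurv (Ioi 0) := fun _ ht =>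
  (hasDerivAt_gsurv ht).continuousAt.continuousWithinAt

/-- the weighted integral -/
noncomputable def JJ {d : ℕ} (p : ℝ) (b : Fin d → ℝ) : ℝ :=
  ∫ t in Ioi 0, (∏ k, gsurv (t * b k)) * t ^ (p - 1)

lemma contOn_integrand {d : ℕ} (p : ℝ) {b : Fin d → ℝ} (hb : ∀ k, 0 < b k) :
    ContinuousOn (fun t => (∏ k, gsurv (t * b k)) * t ^ (p - 1)) (Ioi 0) := by
  refine ContinuousOn.mul ?_ ?_
  · refine continuousOn_finsetProd _ fun k _ => ?_
    refine continuousOn_gsurv.comp (by fun_prop) fun t ht => ?_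
    exact mul_pos ht (hb k)
  · intro t ht
    exact (Real.continuousAt_rpow_const _ _ (Or.inl (ne_of_gt ht))).continuousWithinAt

lemma integrand_pos {d : ℕ} (p : ℝ) {b : Fin d → ℝ} (hb : ∀ k, 0 < b k) {t : ℝ} (ht : 0 < t) :
    0 < (∏ k, gsurv (t * b k)) * t ^ (p - 1) :=
  mul_pos (Finset.prod_pos fun k _ => gsurv_pos (mul_pos ht (hb k))) (Real.rpow_pos_of_pos ht _)

lemma integrableOn_JJ {d : ℕ} (hd : 0 < d) (hg1 : ∀ t, 0 < t → gsurv t ≤ 1) {p : ℝ} (hp : 0 < p)
    {b : Fin d → ℝ} (hb : ∀ k, 0 < b k) :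
    IntegrableOn (fun t => (∏ k, gsurv (t * b k)) * t ^ (p - 1)) (Ioi 0) := by
  obtain ⟨C, hC, hCb⟩ := gsurv_exp_bound hg1
  set k0 : Fin d := ⟨0, hd⟩
  have h1 : IntegrableOn (fun t : ℝ => Real.exp (-t) * t ^ (p - 1)) (Ioi 0) :=
    Real.GammaIntegral_convergent hp
  have h2 : IntegrableOn (fun t : ℝ => Real.exp (-(b k0 * t)) * (b k0 * t) ^ (p - 1)) (Ioi 0) := by
    have := (integrableOn_Ioi_comp_mul_left_iff
      (fun t : ℝ => Real.exp (-t) * t ^ (p - 1)) 0 (hb k0)).2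
    rw [mul_zero] at this
    exact this h1
  have h3 := h2.const_mul (C * (b k0) ^ (-(p - 1)))
  refine Integrable.mono' h3 ?_ ?_
  · exact (contOn_integrand p hb).aestronglyMeasurable measurableSet_Ioi
  · rw [ae_restrict_iff' measurableSet_Ioi]
    refine ae_of_all _ fun t ht => ?_
    have ht' : 0 < t := ht
    rw [Real.norm_of_nonneg (integrand_pos p hb ht').le]
    have e1 : ∏ k, gsurv (t * b k) ≤ gsurv (t * b k0) := by
      rw [← Finset.mul_prod_erase _ _ (Finset.mem_univ k0)]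
      refine mul_le_of_le_one_right (gsurv_pos (mul_pos ht' (hb k0))).le ?_
      exact Finset.prod_le_one (fun k _ => (gsurv_pos (mul_pos ht' (hb k))).le)
        fun k _ => hg1 _ (mul_pos ht' (hb k))
    have e2 := hCb (t * b k0) (mul_pos ht' (hb k0))
    have e3 : C * b k0 ^ (-(p - 1)) * (Real.exp (-(b k0 * t)) * (b k0 * t) ^ (p - 1)) =
        C * Real.exp (-(t * b k0)) * t ^ (p - 1) := by
      rw [Real.mul_rpow (hb k0).le ht'.le, Real.rpow_neg (hb k0).le, mul_comm (b k0) t]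
      have := (Real.rpow_pos_of_pos (hb k0) (p - 1)).ne'
      field_simp
    rw [e3]
    exact mul_le_mul_of_nonneg_right (e1.trans e2) (Real.rpow_nonneg ht'.le _)

/-- the mean of the inverse squares -/
noncomputable def avg {d : ℕ} (b : Fin d → ℝ) : ℝ := (∑ k, b k) / d

lemma avg_pos {d : ℕ} (hd : 0 < d) {b : Fin d → ℝ} (hb : ∀ k, 0 < b k) : 0 < avg b := by
  unfold avg
  have h1 : (0 : ℝ) < d := by exact_mod_cast hd
  have h2 : 0 < ∑ k, b k := Finset.sum_pos (fun k _ => hb k) ⟨⟨0, hd⟩, Finset.mem_univ _⟩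
  positivity

/-- Jensen's inequality for the survival function -/
lemma jensen_lt {d : ℕ} (hd : 0 < d) {b : Fin d → ℝ} (hb : ∀ k, 0 < b k) {t : ℝ} (ht : 0 < t)
    (hne : ∃ i j, b i ≠ b j) : ∏ k, gsurv (t * b k) < gsurv (t * avg b) ^ d := by
  have hdr : (0 : ℝ) < d := by exact_mod_cast hd
  obtain ⟨i, j, hij⟩ := hne
  have h1 := (strictConcave_log.lt_map_sum_iff_of_pos (t := Finset.univ) (w := fun _ : Fin d => 1 / (d : ℝ))
    (p := fun k => t * b k) (fun _ _ => by positivity) (by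
      simp only [Finset.sum_const, Finset.card_univ, Fintype.card_fin, nsmul_eq_mul]
      field_simp) (fun k _ => mul_pos ht (hb k))).2
    ⟨i, Finset.mem_univ _, j, Finset.mem_univ _, fun h => hij (mul_left_cancel₀ ht.ne' h)⟩
  simp only [smul_eq_mul] at h1
  rw [← Finset.mul_sum, ← Finset.mul_sum, ← Finset.mul_sum] at h1
  have e1 : 1 / (d : ℝ) * (t * ∑ k, b k) = t * avg b := by unfold avg; ring
  rw [e1, ← Real.log_prod fun k _ => (gsurv_pos (mul_pos ht (hb k))).ne'] at h1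
  have h2 : Real.log (∏ k, gsurv (t * b k)) < d * Real.log (gsurv (t * avg b)) := by
    rw [one_div, inv_mul_lt_iff₀ hdr] at h1
    exact h1
  rw [← Real.log_pow] at h2
  exact (Real.log_lt_log_iff (Finset.prod_pos fun k _ => gsurv_pos (mul_pos ht (hb k)))
    (pow_pos (gsurv_pos (mul_pos ht (avg_pos hd hb))) _)).1 h2

lemma JJ_const {d : ℕ} (p : ℝ) {c : ℝ} (hc : 0 < c) :
    JJ p (fun _ : Fin d => c) = c ^ (-p) * JJ p (fun _ : Fin d => (1 : ℝ)) := by
  unfold JJ
  simp only [Finset.prod_const, Finset.card_univ, Fintype.card_fin, mul_one]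
  have h1 := integral_comp_mul_left_Ioi (fun t => gsurv t ^ d * t ^ (p - 1)) 0 hc
  rw [mul_zero, smul_eq_mul] at h1
  have h2 : ∫ t in Ioi 0, gsurv (t * c) ^ d * t ^ (p - 1) =
      c ^ (-(p - 1)) * ∫ t in Ioi 0, gsurv (c * t) ^ d * (c * t) ^ (p - 1) := by
    rw [← integral_const_mul]
    refine setIntegral_congr_fun measurableSet_Ioi fun t ht => ?_
    have ht' : 0 < t := ht
    show gsurv (t * c) ^ d * t ^ (p - 1) =
      c ^ (-(p - 1)) * (gsurv (c * t) ^ d * (c * t) ^ (p - 1))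
    rw [Real.mul_rpow hc.le ht'.le, Real.rpow_neg hc.le, mul_comm c t]
    have := (Real.rpow_pos_of_pos hc (p - 1)).ne'
    field_simp
  rw [h2, h1, ← mul_assoc]
  congr 1
  rw [← Real.rpow_neg_one c, ← Real.rpow_add hc]
  congr 1
  ring

theorem JJ_lt {d : ℕ} (hd : 0 < d) (hg1 : ∀ t, 0 < t → gsurv t ≤ 1) {p : ℝ} (hp : 0 < p)
    {b : Fin d → ℝ} (hb : ∀ k, 0 < b k) (hne : ∃ i j, b i ≠ b j) :
    JJ p b < avg b ^ (-p) * JJ p (fun _ : Fin d => (1 : ℝ)) := by
  have ha := avg_pos hd hb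
  rw [← JJ_const p ha]
  have i1 := integrableOn_JJ hd hg1 hp hb
  have i2 := integrableOn_JJ hd hg1 hp (b := fun _ : Fin d => avg b) (fun _ => ha)
  have hlt : ∀ t, 0 < t → (∏ k, gsurv (t * b k)) * t ^ (p - 1) <
      (∏ _k : Fin d, gsurv (t * avg b)) * t ^ (p - 1) := by
    intro t ht
    refine mul_lt_mul_of_pos_right ?_ (Real.rpow_pos_of_pos ht _)
    simp only [Finset.prod_const, Finset.card_univ, Fintype.card_fin]
    exact jensen_lt hd hb ht hne
  unfold JJ
  have i3 : IntegrableOn (fun t => (∏ _k : Fin d, gsurv (t * avg b)) * t ^ (p - 1) -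
      (∏ k, gsurv (t * b k)) * t ^ (p - 1)) (Ioi 0) := i2.sub i1
  rw [← sub_pos, ← integral_sub i2 i1, setIntegral_pos_iff_support_of_nonneg_ae ?_ i3]
  · have : Ioi (0 : ℝ) ⊆ Function.support (fun t => (∏ _k : Fin d, gsurv (t * avg b)) * t ^ (p - 1) -
        (∏ k, gsurv (t * b k)) * t ^ (p - 1)) ∩ Ioi 0 := by
      intro t ht
      exact ⟨(sub_pos.2 (hlt t ht)).ne', ht⟩
    refine lt_of_lt_of_le ?_ (measure_mono this)
    simp
  · rw [EventuallyLE, ae_restrict_iff' measurableSet_Ioi]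
    exact ae_of_all _ fun t ht => (sub_pos.2 (hlt t ht)).le

lemma JJ_pos {d : ℕ} (hd : 0 < d) (hg1 : ∀ t, 0 < t → gsurv t ≤ 1) {p : ℝ} (hp : 0 < p)
    {b : Fin d → ℝ} (hb : ∀ k, 0 < b k) : 0 < JJ p b := by
  unfold JJ
  rw [setIntegral_pos_iff_support_of_nonneg_ae ?_ (integrableOn_JJ hd hg1 hp hb)]
  · have : Ioi (0 : ℝ) ⊆ Function.support (fun t => (∏ k, gsurv (t * b k)) * t ^ (p - 1)) ∩
        Ioi 0 := fun t ht => ⟨(integrand_pos p hb ht).ne', ht⟩
    refine lt_of_lt_of_le ?_ (measure_mono this)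
    simp
  · rw [EventuallyLE, ae_restrict_iff' measurableSet_Ioi]
    exact ae_of_all _ fun t ht => (integrand_pos p hb ht).le

end Pool.Agent.V11330.ET
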