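import Pool.Agent.V11330.BMTools

set_option autoImplicit false

open Set Filter Topology MeasureTheory ProbabilityTheory
open scoped NNReal ENNReal

namespace Pool.Agent.V11330.ET

open Pool.Agent.TH970

section
variable {Ω : Type*} [MeasurableSpace Ω] {P : Measure Ω} [IsProbabilityMeasure P]
  {X : ℝ≥0 → Ω → ℝ}

/-! ### no atoms -/

lemma mx_noatom (hX : CBM P X) {t : ℝ≥0} (ht : 0 < t) (x : ℝ) :
    P {ω | mx (path X ω) 0 t = x} = 0 := by
  have hm1 : Measurable (fun ω => mx (path X ω) 0 t) := (measurable_mx 0 t).comp hX.mpath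
  have hm2 : Measurable (fun ω => |X t ω|) := (hX.meas t).abs
  have hlaw : P.map (fun ω => mx (path X ω) 0 t) = P.map (fun ω => |X t ω|) := by
    have i1 := Measure.isProbabilityMeasure_map hm1.aemeasurable (μ := P)
    refine Measure.ext_of_Iic _ _ fun c => ?_
    rw [Measure.map_apply hm1 measurableSet_Iic, Measure.map_apply hm2 measurableSet_Iic]
    rcases le_or_gt 0 c with hc | hc
    · exact mx_law hX ht hc
    · have e1 : (fun ω => mx (path X ω) 0 t) ⁻¹' Iic c = ∅ := by
        ext ω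
        simp only [mem_preimage, mem_Iic, mem_empty_iff_false, iff_false, not_le]
        have h0 := le_mx (hX.cont ω) (le_refl (0 : ℝ≥0)) (zero_le (a := t))
        rw [hX.path_zero] at h0
        linarith
      have e2 : (fun ω => |X t ω|) ⁻¹' Iic c = ∅ := by
        ext ω
        simp only [mem_preimage, mem_Iic, mem_empty_iff_false, iff_false, not_le]
        exact hc.trans_le (abs_nonneg _)
      rw [e1, e2]
  have h1 : P {ω | mx (path X ω) 0 t = x} = P.map (fun ω => mx (path X ω) 0 t) {x} := by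
    rw [Measure.map_apply hm1 (measurableSet_singleton x)]; rfl
  rw [h1, hlaw, Measure.map_apply hm2 (measurableSet_singleton x)]
  have h2 : (fun ω => |X t ω|) ⁻¹' {x} ⊆ (X t) ⁻¹' {x, -x} := by
    intro ω hω
    simp only [mem_preimage, mem_singleton_iff, mem_insert_iff] at hω ⊢
    rcases abs_choice (X t ω) with h | h
    · left; rw [← hω, h]
    · right; rw [← hω, h, neg_neg]
  refine measure_mono_null h2 ?_
  have ht' : t ≠ 0 := ht.ne'
  have := nullSingletonClass_gaussianReal (μ := 0) ht'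
  rw [← Measure.map_apply (hX.meas t) ((Set.toFinite _).measurableSet),
    (hX.pre.hasLaw_eval t).map_eq]
  exact (Set.toFinite _).measure_zero _

lemma am_noatom (hX : CBM P X) {t : ℝ≥0} (ht : 0 < t) (a : ℝ) :
    P {ω | am (path X ω) t = a} = 0 := by
  have h1 := mx_noatom hX ht a
  have h2 := mx_noatom (BMTools.CBM_neg hX) ht a
  refine measure_mono_null ?_ (measure_union_null h1 h2)
  intro ω hω
  simp only [mem_ofPred_eq, mem_union] at hω ⊢
  obtain ⟨s, _, hs, hmax⟩ := exists_mx (w := fun s => |path X ω s|) (hX.cont ω).abs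
    (zero_le (a := t))
  have hmax' : a = |path X ω s| := by rw [← hω]; exact hmax
  have hle : ∀ u ≤ t, |path X ω u| ≤ a := fun u hu => by
    rw [← hω]; exact le_am (hX.cont ω) hu
  rcases abs_choice (path X ω s) with h | h
  · left
    rw [h] at hmax'
    refine le_antisymm (mx_le zero_le fun u _ hu => (le_abs_self _).trans (hle u hu)) ?_
    rw [hmax']
    exact le_mx (hX.cont ω) zero_le hs
  · right
    rw [h] at hmax'
    have hc : Continuous (path (-X) ω) := (hX.cont ω).neg
    refine le_antisymm (mx_le zero_le fun u _ hu => (neg_le_abs _).trans (hle u hu)) ?_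
    rw [hmax']
    exact le_mx hc zero_le hs

/-! ### the grid -/

/-- survival on the grid of mesh `h` up to step `k` -/
def Gr (X : ℝ≥0 → Ω → ℝ) (h : ℝ≥0) (a : ℝ) (k : ℕ) : Set Ω :=
  {ω | ∀ j : ℕ, j ≤ k → |X (j * h) ω| < a}

lemma measurableSet_Gr (hX : CBM P X) (h : ℝ≥0) (a : ℝ) (k : ℕ) : MeasurableSet (Gr X h a k) := by
  have : Gr X h a k = ⋂ j ∈ Finset.range (k + 1), {ω | |X (j * h) ω| < a} := by
    ext ω
    simp only [Gr, mem_ofPred_eq, mem_iInter, Finset.mem_range]
    exact ⟨fun H j hj => H j (by omega), fun H j hj => H j (by omega)⟩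
  rw [this]
  exact Finset.measurableSet_biInter _ fun j _ =>
    measurableSet_lt (hX.meas _).abs measurable_const

lemma Gr_succ_subset (h : ℝ≥0) (a : ℝ) (k : ℕ) : Gr X h a (k + 1) ⊆ Gr X h a k :=
  fun _ hω j hj => hω j (by omega)

/-- one step of the complex exponential martingale -/
lemma one_step_exp (hX : CBM P X) (h : ℝ≥0) (a κ : ℝ) (k : ℕ) :
    ∫ ω in Gr X h a k, Complex.exp (κ * X (((k + 1 : ℕ) : ℝ≥0) * h) ω * Complex.I) ∂P =
      Complex.exp (-(h * κ ^ 2 / 2)) *
        ∫ ω in Gr X h a k, Complex.exp (κ * X ((k : ℝ≥0) * h) ω * Complex.I) ∂P := by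
  set t₀ : ℝ≥0 := (k : ℝ≥0) * h with ht₀
  have ht1 : ((k + 1 : ℕ) : ℝ≥0) * h = t₀ + h := by rw [ht₀]; push_cast; ring
  rw [ht1]
  have hG := measurableSet_Gr hX h a k
  -- the future increment
  set Z : Ω → ℝ := fun ω => X (t₀ + h) ω - X t₀ ω with hZ
  have hZm : Measurable Z := (hX.meas _).sub (hX.meas _)
  have hZlaw : P.map Z = gaussianReal 0 h := by
    have := ((hX.pre.shift t₀).hasLaw_eval h).map_eq
    exact this
  have hcharZ : ∫ ω, Complex.exp (κ * Z ω * Complex.I) ∂P = Complex.exp (-(h * κ ^ 2 / 2)) := by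
    have h1 : ∫ ω, Complex.exp (κ * Z ω * Complex.I) ∂P = charFun (P.map Z) κ := by
      rw [charFun_apply_real, integral_map hZm.aemeasurable (by fun_prop)]
    rw [h1, hZlaw, charFun_gaussianReal]
    congr 1
    push_cast
    ring
  -- the past
  set V : Ω → ℂ := (Gr X h a k).indicator
    (fun ω => Complex.exp (κ * X t₀ ω * Complex.I)) with hV
  have hind : IndepFun V (fun ω => Complex.exp (κ * Z ω * Complex.I)) P := by
    have h1 := (hX.pre.indepFun_shift t₀).symm
    let SS : Set (Set.Iic t₀ → ℝ) := {w | ∀ j : ℕ, (hj : j ≤ k) → |w ⟨j * h, by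
        show (j : ℝ≥0) * h ≤ (k : ℝ≥0) * h; gcongr⟩| < a}
    have hSSm : MeasurableSet SS := by
      have : SS = ⋂ j : ℕ, ⋂ hj : j ≤ k, {w | |w ⟨j * h, by
          show (j : ℝ≥0) * h ≤ (k : ℝ≥0) * h; gcongr⟩| < a} := by
        ext w; simp [SS]
      rw [this]
      exact MeasurableSet.iInter fun j => MeasurableSet.iInter fun hj =>
        measurableSet_lt (measurable_pi_apply _).abs measurable_const
    let φ : (Set.Iic t₀ → ℝ) → ℂ :=
      SS.indicator (fun w => Complex.exp (κ * w ⟨t₀, mem_Iic.2 le_rfl⟩ * Complex.I))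
    have hφm : Measurable φ := Measurable.indicator (by fun_prop) hSSm
    have hmem : ∀ ω, (fun t : Set.Iic t₀ => X t ω) ∈ SS ↔ ω ∈ Gr X h a k := fun ω => Iff.rfl
    have hψm : Measurable (fun w : ℝ≥0 → ℝ => Complex.exp (κ * w h * Complex.I)) := by fun_prop
    have h2 := h1.comp hφm hψm
    have e1 : φ ∘ (fun ω (t : Set.Iic t₀) => X t ω) = V := by
      funext ω
      simp only [Function.comp_apply, φ]
      by_cases hω : ω ∈ Gr X h a k
      · rw [hV, indicator_of_mem hω, indicator_of_mem ((hmem ω).2 hω)]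
      · rw [hV, indicator_of_notMem hω, indicator_of_notMem (fun hh => hω ((hmem ω).1 hh))]
    rw [e1] at h2
    exact h2
  have hVm : Measurable V := by
    have := hX.meas t₀
    exact Measurable.indicator (by fun_prop) hG
  have h3 := hind.integral_fun_mul_eq_mul_integral hVm.aestronglyMeasurable
    (by fun_prop)
  rw [hcharZ] at h3
  have e2 : ∀ ω, V ω * Complex.exp (κ * Z ω * Complex.I) =
      (Gr X h a k).indicator (fun ω => Complex.exp (κ * X (t₀ + h) ω * Complex.I)) ω := by
    intro ω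
    simp only [hV, indicator]
    split_ifs
    · rw [← Complex.exp_add]
      congr 1
      rw [hZ]; push_cast; ring
    · simp
  rw [← integral_indicator hG, ← integral_indicator hG, ← hV]
  simp only [e2] at h3
  rw [h3, mul_comm]

lemma one_step (hX : CBM P X) (h : ℝ≥0) (a κ : ℝ) (k : ℕ) :
    ∫ ω in Gr X h a k, Real.cos (κ * X (((k + 1 : ℕ) : ℝ≥0) * h) ω) ∂P =
      Real.exp (-(h * κ ^ 2 / 2)) * ∫ ω in Gr X h a k, Real.cos (κ * X ((k : ℝ≥0) * h) ω) ∂P := by
  have h1 := congrArg Complex.re (one_step_exp hX h a κ k)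
  have hre : ∀ s : ℝ≥0, (∫ ω in Gr X h a k, Complex.exp (κ * X s ω * Complex.I) ∂P).re =
      ∫ ω in Gr X h a k, Real.cos (κ * X s ω) ∂P := by
    intro s
    have hint : Integrable (fun ω => Complex.exp (κ * X s ω * Complex.I))
        (P.restrict (Gr X h a k)) := by
      refine Integrable.of_bound (C := 1) ?_ (ae_of_all _ fun ω => ?_)
      · have := hX.meas s
        exact Measurable.aestronglyMeasurable (by fun_prop)
      · have : (κ * X s ω * Complex.I : ℂ) = ((κ * X s ω : ℝ) : ℂ) * Complex.I := by push_cast; ring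
        rw [this, Complex.norm_exp_ofReal_mul_I]
    have h2 : ∫ ω in Gr X h a k, RCLike.re (Complex.exp (κ * X s ω * Complex.I)) ∂P =
        RCLike.re (∫ ω in Gr X h a k, Complex.exp (κ * X s ω * Complex.I) ∂P) := integral_re hint
    have h3 : (∫ ω in Gr X h a k, Complex.exp (κ * X s ω * Complex.I) ∂P).re =
        ∫ ω in Gr X h a k, RCLike.re (Complex.exp (κ * X s ω * Complex.I)) ∂P := h2.symm
    rw [h3]
    refine integral_congr_ae (ae_of_all _ fun ω => ?_)
    have : (κ * X s ω * Complex.I : ℂ) = ((κ * X s ω : ℝ) : ℂ) * Complex.I := by push_cast; ring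
    simp only [this]
    show (Complex.exp (((κ * X s ω : ℝ) : ℂ) * Complex.I)).re = _
    rw [Complex.exp_ofReal_mul_I_re]
  rw [hre] at h1
  have h4 : (Complex.exp (-(h * κ ^ 2 / 2))) = ((Real.exp (-(h * κ ^ 2 / 2)) : ℝ) : ℂ) := by
    push_cast; rfl
  rw [h4, Complex.re_ofReal_mul, hre] at h1
  exact h1

/-! ### telescoping -/

/-- the discounted cosine -/
noncomputable def Mk (X : ℝ≥0 → Ω → ℝ) (h : ℝ≥0) (κ : ℝ) (k : ℕ) (ω : Ω) : ℝ :=
  Real.exp (k * h * κ ^ 2 / 2) * Real.cos (κ * X ((k : ℝ≥0) * h) ω)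

/-- the boundary term -/
noncomputable def Psi (X : ℝ≥0 → Ω → ℝ) (h : ℝ≥0) (a κ : ℝ) (N : ℕ) (ω : Ω) : ℝ :=
  ∑ k ∈ Finset.range N, (Gr X h a k \ Gr X h a (k + 1)).indicator (Mk X h κ (k + 1)) ω

lemma measurable_Mk (hX : CBM P X) (h : ℝ≥0) (κ : ℝ) (k : ℕ) : Measurable (Mk X h κ k) := by
  have := hX.meas ((k : ℝ≥0) * h)
  unfold Mk
  fun_prop

lemma abs_Mk_le (h : ℝ≥0) (κ : ℝ) (k : ℕ) (ω : Ω) :
    |Mk X h κ k ω| ≤ Real.exp (k * h * κ ^ 2 / 2) := by
  unfold Mk
  rw [abs_mul, abs_of_pos (Real.exp_pos _)]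
  exact mul_le_of_le_one_right (Real.exp_pos _).le (Real.abs_cos_le_one _)

lemma integrable_Mk (hX : CBM P X) (h : ℝ≥0) (κ : ℝ) (k : ℕ) : Integrable (Mk X h κ k) P :=
  Integrable.of_bound (measurable_Mk hX h κ k).aestronglyMeasurable _
    (ae_of_all _ fun ω => by rw [Real.norm_eq_abs]; exact abs_Mk_le h κ k ω)

lemma step_M (hX : CBM P X) (h : ℝ≥0) (a κ : ℝ) (k : ℕ) :
    ∫ ω in Gr X h a k, Mk X h κ (k + 1) ω ∂P = ∫ ω in Gr X h a k, Mk X h κ k ω ∂P := by
  unfold Mk
  rw [integral_const_mul, integral_const_mul, one_step hX, ← mul_assoc, ← Real.exp_add]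
  congr 2
  push_cast
  ring

lemma telescope (hX : CBM P X) (h : ℝ≥0) (a κ : ℝ) (N : ℕ) :
    ∫ ω in Gr X h a N, Mk X h κ N ω ∂P + ∫ ω, Psi X h a κ N ω ∂P =
      ∫ ω in Gr X h a 0, Mk X h κ 0 ω ∂P := by
  have hI : ∀ k, Integrable ((Gr X h a k \ Gr X h a (k + 1)).indicator (Mk X h κ (k + 1))) P :=
    fun k => (integrable_Mk hX h κ (k + 1)).indicator
      ((measurableSet_Gr hX h a k).diff (measurableSet_Gr hX h a (k + 1)))
  induction N with
  | zero => simp [Psi]
  | succ N ih =>
    have h1 : ∫ ω, Psi X h a κ (N + 1) ω ∂P = ∫ ω, Psi X h a κ N ω ∂P +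
        ∫ ω in Gr X h a N \ Gr X h a (N + 1), Mk X h κ (N + 1) ω ∂P := by
      have : ∀ ω, Psi X h a κ (N + 1) ω = Psi X h a κ N ω +
          (Gr X h a N \ Gr X h a (N + 1)).indicator (Mk X h κ (N + 1)) ω := by
        intro ω; unfold Psi; rw [Finset.sum_range_succ]
      simp only [this]
      rw [integral_add, integral_indicator
        ((measurableSet_Gr hX h a N).diff (measurableSet_Gr hX h a (N + 1)))]
      · exact integrable_finsetSum _ fun k _ => hI k
      · exact hI N
    have h2 := integral_inter_add_sdiff (μ := P) (s := Gr X h a N) (t := Gr X h a (N + 1))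
      (f := Mk X h κ (N + 1)) (measurableSet_Gr hX h a (N + 1))
      (integrable_Mk hX h κ (N + 1)).integrableOn
    rw [inter_eq_self_of_subset_right (Gr_succ_subset h a N), step_M hX] at h2
    rw [h1, ← ih]
    linarith

lemma abs_Psi_le {h : ℝ≥0} {a κ c : ℝ} (hc : 0 ≤ c) (N : ℕ) (ω : Ω)
    (H : ∀ k < N, ω ∈ Gr X h a k → ω ∉ Gr X h a (k + 1) → |Mk X h κ (k + 1) ω| ≤ c) :
    |Psi X h a κ N ω| ≤ c := by
  classical
  have h1 : ∀ k ∈ Finset.range N, |(Gr X h a k \ Gr X h a (k + 1)).indicator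
      (Mk X h κ (k + 1)) ω| ≤ c * ((Gr X h a k).indicator (fun _ => (1 : ℝ)) ω -
        (Gr X h a (k + 1)).indicator (fun _ => (1 : ℝ)) ω) := by
    intro k hk
    have hk := Finset.mem_range.1 hk
    by_cases h1 : ω ∈ Gr X h a k
    · by_cases h2 : ω ∈ Gr X h a (k + 1)
      · rw [indicator_of_notMem (fun hh => hh.2 h2), indicator_of_mem h1, indicator_of_mem h2]
        simp
      · rw [indicator_of_mem (show ω ∈ Gr X h a k \ Gr X h a (k + 1) from ⟨h1, h2⟩),
          indicator_of_mem h1, indicator_of_notMem h2]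
        simpa using H k hk h1 h2
    · have h2 : ω ∉ Gr X h a (k + 1) := fun hh => h1 (Gr_succ_subset h a k hh)
      rw [indicator_of_notMem (fun hh => h1 hh.1), indicator_of_notMem h1, indicator_of_notMem h2]
      simp
  unfold Psi
  refine (Finset.abs_sum_le_sum_abs _ _).trans ((Finset.sum_le_sum h1).trans ?_)
  rw [← Finset.mul_sum, Finset.sum_range_sub']
  have h2 : (Gr X h a 0).indicator (fun _ => (1 : ℝ)) ω ≤ 1 :=
    indicator_le_self' (fun _ _ => zero_le_one) ω
  have h3 : 0 ≤ (Gr X h a N).indicator (fun _ => (1 : ℝ)) ω := indicator_nonneg (fun _ _ => zero_le_one) ω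
  nlinarith

lemma abs_cos_le {κ a x : ℝ} (hκ : 0 ≤ κ) (hcos : Real.cos (κ * a) = 0) (hx : a ≤ |x|) :
    |Real.cos (κ * x)| ≤ κ * (|x| - a) := by
  have h1 : Real.cos (κ * x) = Real.cos (κ * |x|) := by
    rcases abs_choice x with h | h <;> rw [h]
    rw [mul_neg, Real.cos_neg]
  have h2 := Real.abs_cos_sub_cos_le (κ * |x|) (κ * a)
  rw [hcos, sub_zero] at h2
  rw [h1]
  refine h2.trans (le_of_eq ?_)
  rw [← mul_sub, abs_mul, abs_of_nonneg hκ, abs_of_nonneg (by linarith)]

theorem killed_cos (hX : CBM P X) {t : ℝ≥0} (ht : 0 < t) {a κ : ℝ} (ha : 0 < a) (hκ : 0 ≤ κ)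
    (hcos : Real.cos (κ * a) = 0) :
    ∫ ω in {ω | am (path X ω) t < a}, Real.cos (κ * X t ω) ∂P = Real.exp (-(t * κ ^ 2 / 2)) := by
  set hh : ℕ → ℝ≥0 := fun n => t / (n + 1 : ℕ) with hhh
  have hNh : ∀ n : ℕ, ((n + 1 : ℕ) : ℝ≥0) * hh n = t := fun n => mul_div_cancel₀ t (by positivity)
  have hNh' : ∀ n : ℕ, (((n + 1 : ℕ) : ℝ)) * (hh n : ℝ) = t := by
    intro n
    have := congrArg (fun x : ℝ≥0 => (x : ℝ)) (hNh n)
    simpa using this
  have hAm : MeasurableSet {ω | am (path X ω) t < a} :=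
    measurableSet_lt ((measurable_am t).comp hX.mpath) measurable_const
  set C : ℝ := Real.exp (t * κ ^ 2 / 2) with hC
  have hCpos : 0 < C := Real.exp_pos _
  -- bound on the exponential factor
  have hexp : ∀ n k : ℕ, k ≤ n + 1 → Real.exp (k * hh n * κ ^ 2 / 2) ≤ C := by
    intro n k hk
    apply Real.exp_le_exp.2
    have h1 : (k : ℝ) * hh n ≤ t := by
      rw [← hNh' n]
      gcongr
    have : 0 ≤ κ ^ 2 := sq_nonneg _
    nlinarith
  -- boundary terms vanish
  have hPsi : Tendsto (fun n => ∫ ω, Psi X (hh n) a κ (n + 1) ω ∂P) atTop (𝓝 0) := by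
    have h0 : (0 : ℝ) = ∫ _ω : Ω, (0 : ℝ) ∂P := by simp
    rw [h0]
    refine tendsto_integral_of_dominated_convergence (fun _ => C) ?_ (integrable_const _) ?_ ?_
    · intro n
      refine Measurable.aestronglyMeasurable ?_
      unfold Psi
      exact Finset.measurable_fun_sum _ fun k _ => (measurable_Mk hX _ _ _).indicator
        ((measurableSet_Gr hX _ a k).diff (measurableSet_Gr hX _ a (k + 1)))
    · intro n
      refine ae_of_all _ fun ω => ?_
      rw [Real.norm_eq_abs]
      refine abs_Psi_le hCpos.le _ _ fun k hk _ _ => ?_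
      exact (abs_Mk_le _ _ _ _).trans (hexp n (k + 1) (by omega))
    · refine ae_of_all _ fun ω => ?_
      rw [Metric.tendsto_atTop]
      intro ε hε
      obtain ⟨N, hN⟩ := eventually_Nb (hX.cont ω) ht
        (show 0 < ε / 2 / (C * (κ + 1)) by positivity)
      refine ⟨N, fun n hn => ?_⟩
      rw [Real.dist_eq, sub_zero]
      refine lt_of_le_of_lt (abs_Psi_le (c := ε / 2) (by positivity) _ _ fun k hk h1 h2 => ?_)
        (by linarith)
      have h3 := hN n hn k hk
      -- the value at the exit step is beyond the boundary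
      have h4 : |X ((k : ℝ≥0) * hh n) ω| < a := h1 k le_rfl
      have h5 : a ≤ |X (((k + 1 : ℕ) : ℝ≥0) * hh n) ω| := by
        by_contra hcon
        push Not at hcon
        apply h2
        intro j hj
        rcases Nat.lt_or_ge j (k + 1) with hj' | hj'
        · exact h1 j (by omega)
        · have : j = k + 1 := by omega
          rw [this]; exact hcon
      have h6 := abs_cos_le hκ hcos h5
      have h7 : |X (((k + 1 : ℕ) : ℝ≥0) * hh n) ω| - a ≤ ε / 2 / (C * (κ + 1)) := by
        have h8 := abs_sub_abs_le_abs_sub (X (((k + 1 : ℕ) : ℝ≥0) * hh n) ω)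
          (X ((k : ℝ≥0) * hh n) ω)
        have h9 : |X (((k + 1 : ℕ) : ℝ≥0) * hh n) ω - X ((k : ℝ≥0) * hh n) ω| ≤
          ε / 2 / (C * (κ + 1)) := h3
        linarith
      unfold Mk
      rw [abs_mul, abs_of_pos (Real.exp_pos _)]
      calc Real.exp (((k + 1 : ℕ) : ℝ) * hh n * κ ^ 2 / 2) *
            |Real.cos (κ * X (((k + 1 : ℕ) : ℝ≥0) * hh n) ω)| ≤
            C * (κ * (ε / 2 / (C * (κ + 1)))) := by
            refine mul_le_mul (hexp n (k + 1) (by omega)) (h6.trans ?_) (abs_nonneg _) hCpos.le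
            exact mul_le_mul_of_nonneg_left h7 hκ
        _ ≤ C * ((κ + 1) * (ε / 2 / (C * (κ + 1)))) := by gcongr; linarith
        _ = ε / 2 := by field_simp
  -- convergence of the interior term
  have hM : ∀ n ω, Mk X (hh n) κ (n + 1) ω = C * Real.cos (κ * X t ω) := by
    intro n ω
    unfold Mk
    rw [hNh n, hNh' n]
  have hInt : Tendsto (fun n => ∫ ω in Gr X (hh n) a (n + 1), Mk X (hh n) κ (n + 1) ω ∂P) atTop
      (𝓝 (∫ ω in {ω | am (path X ω) t < a}, C * Real.cos (κ * X t ω) ∂P)) := by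
    simp only [hM]
    simp only [← integral_indicator hAm]
    have e1 : ∀ n, ∫ ω in Gr X (hh n) a (n + 1), C * Real.cos (κ * X t ω) ∂P =
        ∫ ω, (Gr X (hh n) a (n + 1)).indicator (fun ω => C * Real.cos (κ * X t ω)) ω ∂P :=
      fun n => (integral_indicator (measurableSet_Gr hX _ a _)).symm
    simp only [e1]
    have hmc : Measurable (fun ω => C * Real.cos (κ * X t ω)) := by
      have := hX.meas t
      fun_prop
    refine tendsto_integral_of_dominated_convergence (fun _ => C) ?_ (integrable_const _) ?_ ?_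
    · intro n
      exact (hmc.indicator (measurableSet_Gr hX _ a _)).aestronglyMeasurable
    · intro n
      refine ae_of_all _ fun ω => ?_
      refine (norm_indicator_le_norm_self _ _).trans ?_
      rw [norm_mul, Real.norm_of_nonneg hCpos.le, Real.norm_eq_abs]
      exact mul_le_of_le_one_right hCpos.le (Real.abs_cos_le_one _)
    · have hna : ∀ᵐ ω ∂P, am (path X ω) t ≠ a := by
        rw [ae_iff]; simpa using am_noatom hX ht a
      filter_upwards [hna] with ω hω
      rcases lt_or_gt_of_ne hω with hlt | hgt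
      · have : ∀ n, ω ∈ Gr X (hh n) a (n + 1) := by
          intro n j hj
          refine lt_of_le_of_lt (le_am (hX.cont ω) (s := (j : ℝ≥0) * hh n) (b := t) ?_) hlt
          rw [← hNh n]
          gcongr
        rw [indicator_of_mem (show ω ∈ {ω | am (path X ω) t < a} from hlt)]
        refine tendsto_const_nhds.congr fun n => ?_
        rw [indicator_of_mem (this n)]
      · obtain ⟨s, _, hs, hmax⟩ := exists_mx (w := fun s => |path X ω s|) (hX.cont ω).abs
          (zero_le (a := t))
        have hgt' : a < |path X ω s| := by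
          have : am (path X ω) t = |path X ω s| := hmax
          rwa [this] at hgt
        obtain ⟨N, hN⟩ := exists_grid (w := fun s => |path X ω s|) (hX.cont ω).abs ht hs hgt'
        rw [indicator_of_notMem (show ω ∉ {ω | am (path X ω) t < a} from not_lt.2 hgt.le)]
        refine tendsto_const_nhds.congr' ?_
        filter_upwards [eventually_ge_atTop N] with n hn
        obtain ⟨k, hk, hxk⟩ := hN n hn
        rw [indicator_of_notMem]
        intro hmem
        exact absurd (hmem k hk) (not_lt.2 (le_of_lt hxk))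
  -- conclusion
  have h0 : ∀ n, ∫ ω in Gr X (hh n) a 0, Mk X (hh n) κ 0 ω ∂P = 1 := by
    intro n
    have e1 : Gr X (hh n) a 0 = univ := by
      ext ω
      simp only [Gr, mem_ofPred_eq, mem_univ, iff_true]
      intro j hj
      have : j = 0 := by omega
      rw [this, Nat.cast_zero, zero_mul, hX.zero]
      simpa using ha
    rw [e1, Measure.restrict_univ]
    have e2 : ∀ ω, Mk X (hh n) κ 0 ω = 1 := by
      intro ω
      have hz : X (((0 : ℕ) : ℝ≥0) * hh n) ω = 0 := by
        rw [Nat.cast_zero, zero_mul]; exact hX.zero ω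
      unfold Mk
      rw [hz]
      simp
    simp [e2]
  have hlim := hInt.add hPsi
  simp only [telescope hX, h0] at hlim
  have h1 := tendsto_nhds_unique hlim tendsto_const_nhds
  rw [add_zero, integral_const_mul] at h1
  have h2 : Real.exp (-(t * κ ^ 2 / 2)) = C⁻¹ := by rw [hC, Real.exp_neg]
  rw [h2]
  exact eq_inv_of_mul_eq_one_right h1

end

end Pool.Agent.V11330.ET
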